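import Pool.Agent.helper63.FC.B2
import Pool.Agent.helper63.FC.B3
import Pool.Agent.helper63.FC.B4
import Pool.Agent.helper38.FC.B5
import Pool.Agent.helper29.FC.B6
import Pool.Agent.helper29.FC.B8

/-!
# The Bombieri-Vinogradov theorem with a smooth weight
-/

namespace Pool.Agent.helper85.FC

open Finset Real ArithmeticFunction Pool.Agent.helper39.MT

/-- B6: the sum over all moduli. -/
theorem bv_plain (ε : ℝ) (hε : 0 < ε) (hε1 : ε ≤ 1 / 4) (K : ℕ) : ∃ a₁ : ℝ, ∀ a : ℝ, a₁ ≤ a →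
    ∑ m ∈ Icc 1 ⌊Real.exp ((1 / 2 - ε) * a)⌋₊,
      ((1 / (Nat.totient m : ℝ)) * ∑ r ∈ m.divisors with 2 ≤ r, TP a r) ≤ 1 / a ^ K :=
  B6_bv_plain_of small_TT TP_large ε hε hε1 K

/-- B8: **Bombieri-Vinogradov**, level `1/2`, with divisor weights. -/
theorem bv (A : ℕ) (hA : 0 < A) (ε : ℝ) (hε : 0 < ε) (hε1 : ε ≤ 1 / 4) (K h : ℕ) :
    ∃ a₁ : ℝ, ∀ a : ℝ, a₁ ≤ a → ∃ E : ℕ → ℝ, (∀ D, 0 ≤ E D) ∧
      (∀ D b : ℕ, 0 < D → (D : ℝ) ≤ Real.exp ((1 / 2 - ε) * a) → Nat.Coprime b (A * D) →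
        EP (a + Real.log A) (A * D) b ≤ E D) ∧
      ∑ D ∈ Icc 1 ⌊Real.exp ((1 / 2 - ε) * a)⌋₊ with Squarefree D ∧ Nat.Coprime D A,
        (h : ℝ) ^ D.primeFactors.card * E D ≤ 1 / a ^ K :=
  B8_bv_of EP_le bv_plain A hA ε hε hε1 K h

end Pool.Agent.helper85.FC
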