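import Pool.Agent.helper85.FC.F1
import Pool.Agent.helper71.FC.F2
import Pool.Agent.helper71.FC.F4

/-!
# Five coefficients (MP_bf63dc_nt): assembly
-/

namespace Pool.Agent.helper85.FC

open Finset Real Pool.Agent.helper39.MT

/-- F2: two primes in different clusters, admissible forms. -/
theorem cluster_main : ∃ kc : ℕ, 1 ≤ kc ∧ ∀ (A : Fin (5 * kc) → ℕ) (B : Fin (5 * kc) → ℤ),
    (∀ i, 0 < A i) → (∀ i j, i ≠ j → (A i : ℤ) * B j ≠ A j * B i) →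
    (∀ p : ℕ, p.Prime → ∃ n : ℕ, ∀ i, ¬ (p : ℤ) ∣ A i * n + B i) →
    ∀ N : ℕ, ∃ n ≥ N, ∃ i j, cl i ≠ cl j ∧
      ((A i : ℤ) * n + B i).toNat.Prime ∧ ((A j : ℤ) * n + B j).toNat.Prime :=
  F2_of cluster_std

/-- F4: **five coefficients**. -/
theorem five_coefficients : ∃ C : ℝ, 0 < C ∧ ∀ (A : ℕ) (a : Fin 5 → ℕ), 2 ≤ A →
    Function.Injective a → (∀ j, 0 < a j) → (∀ j, a j ≤ A) →
    ∃ i j : Fin 5, i ≠ j ∧ ∃ c : ℤ, c ≠ 0 ∧ |(c : ℝ)| ≤ C * A * Real.log A ∧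
      {pq : ℕ × ℕ | pq.1.Prime ∧ pq.2.Prime ∧ (a i : ℤ) * pq.1 - a j * pq.2 = c}.Infinite :=
  F4_of cluster_main

end Pool.Agent.helper85.FC
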