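import Mathlib

/-!
# True cases of Q1 (MP_bf63dc_nt): definitions
-/

namespace Pool.Agent.helper85.FC

/-- `(a, b, c)` satisfies the conditions of Q1, and the equation `a p - b q = c` has infinitely many
solutions in primes `p`, `q`. -/
def TrueCase (a b : ℕ) (c : ℤ) : Prop :=
  0 < a ∧ 0 < b ∧ c ≠ 0 ∧ Nat.Coprime a b ∧ IsCoprime (a : ℤ) c ∧ IsCoprime (b : ℤ) c ∧
    ¬ (Odd a ∧ Odd b ∧ Odd c) ∧
    {pq : ℕ × ℕ | pq.1.Prime ∧ pq.2.Prime ∧ (a : ℤ) * pq.1 - b * pq.2 = c}.Infinite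

/-- The pair `(a, b)` occurs in a true case with `|c| ≤ X` and `m ∣ c`. -/
def Small (m : ℕ) (X : ℝ) (a b : ℕ) : Prop :=
  ∃ c : ℤ, |(c : ℝ)| ≤ X ∧ (m : ℤ) ∣ c ∧ TrueCase a b c

/-- For arbitrarily large `X` at least `δ X` integers `c` with `|c| ≤ X` form a true case with the
pair `(a, b)`. -/
def Ample (δ : ℝ) (a b : ℕ) : Prop :=
  ∀ X₀ : ℝ, ∃ X : ℝ, X₀ ≤ X ∧ δ * X ≤ {c : ℤ | |(c : ℝ)| ≤ X ∧ TrueCase a b c}.ncard

/-- The property `R` for the ratio `a : b` written in lowest terms. -/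
def Lowest (R : ℕ → ℕ → Prop) (a b : ℕ) : Prop := R (a / Nat.gcd a b) (b / Nat.gcd a b)

end Pool.Agent.helper85.FC
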