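import Pool.Agent.helper14.MT.Defs2
import Pool.Agent.helper85.MT.TypeOne

/-!
# Five coefficients (MP_bf63dc_nt): common definitions

All weights are `wt 1 a n = V(log n - a) / n`: a smooth weight around `n = e^a` of mass about one.
-/

namespace Pool.Agent.helper85.FC

open Finset Real ArithmeticFunction Pool.Agent.helper39.MT

/-- `log n` if `n` is prime, `0` otherwise. -/
noncomputable def lam (n : ℕ) : ℝ := if n.Prime then Real.log n else 0

/-- The mass of the weight. -/
noncomputable def mass (a : ℝ) : ℝ := ∑ n ∈ Ioc 0 (NN 1 a), wt 1 a n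

/-- The mass of the primes. -/
noncomputable def pmass (a : ℝ) : ℝ := ∑ n ∈ Ioc 0 (NN 1 a), lam n * wt 1 a n

/-- The error term in the progression `b` modulo `m`. -/
noncomputable def EP (a : ℝ) (m b : ℕ) : ℝ :=
  |∑ n ∈ Ioc 0 (NN 1 a) with n ≡ b [MOD m], lam n * wt 1 a n - pmass a / (Nat.totient m : ℝ)|

open Classical in
/-- The sum of the primitive character sums of conductor `r`. -/
noncomputable def TP (a : ℝ) (r : ℕ) : ℝ :=
  ∑ χ : DirichletCharacter ℂ r with χ.IsPrimitive, ‖TT χ 1 a‖

section
variable {ι : Type*} [Fintype ι] [DecidableEq ι] {k : ℕ}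

/-- The linear forms which integrate out the labels `m` and `m'`. -/
noncomputable def Zl2 (m m' : Fin k) (q : ℝ) (s t : Option (Fin k)) : ℝ :=
  match t with
  | none => if s = none then 1 else if s = some m ∨ s = some m' then q else 0
  | some i => if s = some i then 1 else 0

/-- The coefficients with the labels `m` and `m'` integrated out. -/
noncomputable def yy2 (m m' : Fin k) (q : ι → ℝ) (y : (ι → Option (Fin k)) → ℝ)
    (t : ι → Option (Fin k)) : ℝ :=
  ∑ σ : ι → Option (Fin k), y σ * ∏ p, Zl2 m m' (q p) (σ p) (t p)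

/-- Remove the label `m'`. -/
def rem (m' : Fin k) (σ : ι → Option (Fin k)) : ι → Option (Fin k) :=
  fun p => if σ p = some m' then none else σ p

/-- The total weight of the sets of logarithmic size at most `Y` which avoid the support of `t`. -/
noncomputable def ZZ (q l : ι → ℝ) (Y : ℝ) (t : ι → Option (Fin k)) : ℝ :=
  ∑ S : Finset ι with Disjoint S (supp t) ∧ ∑ p ∈ S, l p ≤ Y, ∏ p ∈ S, q p

open Classical in
/-- The coefficients of the majorant for the pair of forms `m`, `m'`: the label `m` does not occur,
and the label `m'` carries a Selberg sieve of level `Y`. -/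
noncomputable def hz (m m' : Fin k) (q l : ι → ℝ) (Y : ℝ) (y : (ι → Option (Fin k)) → ℝ)
    (σ : ι → Option (Fin k)) : ℝ :=
  if (∀ p, σ p ≠ some m) ∧ ∑ p ∈ cls σ m', l p ≤ Y then
    yy2 m m' q y (rem m' σ) / ZZ q l Y (rem m' σ) else 0

end

/-- The cluster of an index. -/
def cl {kc : ℕ} (i : Fin (5 * kc)) : Fin 5 := (finProdFinEquiv.symm i).1

end Pool.Agent.helper85.FC
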