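import Pool.Agent.helper85.FC.M5
import Pool.Agent.helper38.FC.T5
import Pool.Agent.helper99.FC.T3
import Pool.Agent.helper85.FC.BV

/-!
# Five coefficients (MP_bf63dc_nt): two primes in different clusters (module F1)
-/

namespace Pool.Agent.helper85.FC

open Finset Real ArithmeticFunction Filter Pool.Agent.helper39.MT

/-- The masses of the primes for the different forms agree asymptotically. -/
theorem F1_mass (A : ℕ) (hA : 0 < A) {δ : ℝ} (hδ : 0 < δ) :
    ∀ᶠ a : ℝ in atTop, |pmass (a + Real.log A) - mass a| ≤ δ := by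
  obtain ⟨C₁, a₁, hC₁, h₁⟩ := mass_shift A hA
  obtain ⟨C₂, a₂, hC₂, h₂⟩ := pmass_mass
  have hlog : 0 ≤ Real.log A := Real.log_natCast_nonneg A
  have e1 : Tendsto (fun a : ℝ => C₁ * Real.exp (-a)) atTop (nhds 0) := by
    have := (Real.tendsto_exp_neg_atTop_nhds_zero).const_mul C₁
    simpa using this
  have e2 : Tendsto (fun a : ℝ => C₂ / a) atTop (nhds 0) :=
    tendsto_const_nhds.div_atTop tendsto_id
  filter_upwards [eventually_ge_atTop a₁, eventually_ge_atTop (max a₂ 1),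
    e1.eventually (gt_mem_nhds (half_pos hδ)), e2.eventually (gt_mem_nhds (half_pos hδ))]
    with a ha1 ha2 ha3 ha4
  have b1 := h₁ a ha1
  have b2 := h₂ (a + Real.log A) (by linarith [le_max_left a₂ 1])
  have hpos : 0 < a := by linarith [le_max_right a₂ 1]
  have b3 : C₂ / (a + Real.log A) ≤ C₂ / a :=
    div_le_div_of_nonneg_left hC₂.le hpos (by linarith)
  have := abs_sub_le (pmass (a + Real.log A)) (mass (a + Real.log A)) (mass a)
  linarith

/-- The indices of the cluster `j`. -/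
def ix {kc : ℕ} (j : Fin 5) (x : Fin kc) : Fin (5 * kc) := finProdFinEquiv (j, x)

theorem F1_cl_ix {kc : ℕ} (j : Fin 5) (x : Fin kc) : cl (ix j x) = j := by
  simp [cl, ix]

theorem F1_ix_inj {kc : ℕ} {j : Fin 5} {x x' : Fin kc} (h : ix j x = ix j x') : x = x' := by
  have := finProdFinEquiv.injective h
  exact (Prod.mk.inj this).2

theorem F1_pat {k : ℕ} {A B : Fin k → ℕ} {P : Finset ℕ} {n : ℕ} {p : P} {i : Fin k}
    (h : pat A B P n p = some i) : (p : ℕ) ∣ A i * n + B i := by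
  unfold pat at h
  split_ifs at h with h1
  have h2 := h1.choose_spec
  rw [Option.some_inj] at h
  rwa [h] at h2

theorem F1_smul {ι : Type*} [Fintype ι] [DecidableEq ι] {k : ℕ} (pr : ι → ℕ) (c : ℝ)
    (z : (ι → Option (Fin k)) → ℝ) (e : ι → Option (Fin k)) :
    FF pr (fun σ => c * z σ) e = c * FF pr z e := by
  simp only [FF, mul_sum, mul_assoc]

theorem F1_Ex_smul {ι : Type*} [Fintype ι] [DecidableEq ι] {k : ℕ} (pr : ι → ℕ)
    (μ : ι → Option (Fin k) → ℝ) (c : ℝ) (z : (ι → Option (Fin k)) → ℝ) :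
    Ex μ (fun e => FF pr (fun σ => c * z σ) e ^ 2) = c ^ 2 * Ex μ (fun e => FF pr z e ^ 2) := by
  simp only [Ex, F1_smul, mul_sum]
  refine sum_congr rfl fun e _ => ?_
  ring

theorem F1_arith {G P a X Y s : ℝ} (hG : 0 < G) (ha : 0 < a) (hP0 : 0 < P)
    (hP : 10 * a * G ≤ P) (hX : 998 / 1000 * P ≤ X)
    (hY : Y ≤ 1001 / 1000 * a * X + 422 / 100 * P ^ 2 / G) (hCS : X ^ 2 ≤ s * Y) (hs : 0 ≤ s) :
    22 / 100 * G ≤ s := by
  by_contra hcon
  push Not at hcon
  have hX0 : 0 < X := lt_of_lt_of_le (by positivity) hX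
  have hY0 : 0 < Y := by
    by_contra h
    have : s * Y ≤ 0 := mul_nonpos_of_nonneg_of_nonpos hs (not_lt.1 h)
    nlinarith
  have h1 : s * Y ≤ 22 / 100 * G * Y := mul_le_mul_of_nonneg_right hcon.le hY0.le
  have h2 : 22 / 100 * G * Y ≤ 22 / 100 * G * (1001 / 1000 * a * X + 422 / 100 * P ^ 2 / G) :=
    mul_le_mul_of_nonneg_left hY (by positivity)
  have h3 : 22 / 100 * G * (1001 / 1000 * a * X + 422 / 100 * P ^ 2 / G)
      = 22 / 100 * (1001 / 1000) * (a * G) * X + 22 / 100 * (422 / 100) * P ^ 2 := by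
    field_simp
  have h4 : (a * G) * X ≤ P / 10 * X := mul_le_mul_of_nonneg_right (by linarith) hX0.le
  have h5 : X ^ 2 ≤ 22 / 100 * (1001 / 1000) * (P / 10 * X) + 22 / 100 * (422 / 100) * P ^ 2 := by
    linarith
  have h6 : 0 ≤ (X - 998 / 1000 * P) * P := mul_nonneg (by linarith) hP0.le
  have h7 : 0 < P ^ 2 := by positivity
  nlinarith

theorem F1_core {kc : ℕ} (I : Finset ℕ) (v : ℕ → ℝ) (lm : Fin (5 * kc) → ℕ → ℝ) {a G t : ℝ}
    (hkc : 1 ≤ kc) (ha : 0 < a) (hG : 0 < G) (ht : 0 < t) (hv : ∀ n ∈ I, 0 ≤ v n)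
    (hlm : ∀ i n, 0 ≤ lm i n)
    (h1 : ∑ n ∈ I, v n ≤ 1001 / 1000 * G)
    (h2 : ∀ i, 998 / 1000 * t ≤ ∑ n ∈ I, v n * lm i n)
    (h3 : ∀ i, ∀ n ∈ I, v n ≠ 0 → lm i n ≤ 1001 / 1000 * a)
    (h4 : ∀ i i', i ≠ i' → ∑ n ∈ I, v n * (lm i n * lm i' n) ≤ 422 / 100 * t ^ 2 / G)
    (h5 : 10 * a * G ≤ kc * t)
    (h6 : ∀ n ∈ I, v n ≠ 0 → ∀ i i', cl i ≠ cl i' → lm i n = 0 ∨ lm i' n = 0) : False := by
  classical
  have hkc0 : (1 : ℝ) ≤ kc := by exact_mod_cast hkc
  set U : Fin 5 → ℕ → ℝ := fun j n => ∑ x : Fin kc, lm (ix j x) n with hU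
  have hU0 : ∀ j n, 0 ≤ U j n := fun j n => sum_nonneg fun x _ => hlm _ _
  set X : Fin 5 → ℝ := fun j => ∑ n ∈ I, v n * U j n with hX
  set Y : Fin 5 → ℝ := fun j => ∑ n ∈ I, v n * U j n ^ 2 with hY
  set s : Fin 5 → ℝ := fun j => ∑ n ∈ I, if U j n = 0 then 0 else v n with hs
  have hXe : ∀ j, X j = ∑ x : Fin kc, ∑ n ∈ I, v n * lm (ix j x) n := by
    intro j
    simp only [hX, hU, mul_sum]
    rw [sum_comm]
  have hXlow : ∀ j, 998 / 1000 * (kc * t) ≤ X j := by
    intro j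
    rw [hXe]
    have h7 := card_nsmul_le_sum (univ : Finset (Fin kc))
      (fun x => ∑ n ∈ I, v n * lm (ix j x) n) (998 / 1000 * t) (fun x _ => h2 _)
    rw [card_univ, Fintype.card_fin, nsmul_eq_mul] at h7
    linarith
  have hYup : ∀ j, Y j ≤ 1001 / 1000 * a * X j + 422 / 100 * (kc * t) ^ 2 / G := by
    intro j
    have e : Y j = ∑ x : Fin kc, ∑ x' : Fin kc,
        ∑ n ∈ I, v n * (lm (ix j x) n * lm (ix j x') n) := by
      have e1 : ∀ n, v n * U j n ^ 2
          = ∑ x : Fin kc, ∑ x' : Fin kc, v n * (lm (ix j x) n * lm (ix j x') n) := by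
        intro n
        simp only [hU]
        rw [sq, sum_mul_sum, mul_sum]
        refine sum_congr rfl fun x _ => ?_
        rw [mul_sum]
      simp only [hY, e1]
      rw [sum_comm]
      refine sum_congr rfl fun x _ => ?_
      rw [sum_comm]
    rw [e]
    have hb : ∀ x x' : Fin kc, ∑ n ∈ I, v n * (lm (ix j x) n * lm (ix j x') n)
        ≤ (if x = x' then 1001 / 1000 * a * ∑ n ∈ I, v n * lm (ix j x) n else 0)
          + 422 / 100 * t ^ 2 / G := by
      intro x x'
      have h0 : 0 ≤ 422 / 100 * t ^ 2 / G := by positivity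
      by_cases hx : x = x'
      · rw [if_pos hx, ← hx]
        refine le_trans ?_ (le_add_of_nonneg_right h0)
        rw [mul_sum]
        refine sum_le_sum fun n hn => ?_
        rcases eq_or_ne (v n) 0 with hvn | hvn
        · rw [hvn]; simp
        · have h7 := h3 (ix j x) n hn hvn
          have h8 := hlm (ix j x) n
          have h9 := hv n hn
          have h10 : 0 ≤ v n * lm (ix j x) n := mul_nonneg h9 h8
          nlinarith
      · rw [if_neg hx, zero_add]
        exact h4 _ _ fun h => hx (F1_ix_inj h)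
    calc ∑ x : Fin kc, ∑ x' : Fin kc, ∑ n ∈ I, v n * (lm (ix j x) n * lm (ix j x') n)
        ≤ ∑ x : Fin kc, ∑ x' : Fin kc,
          ((if x = x' then 1001 / 1000 * a * ∑ n ∈ I, v n * lm (ix j x) n else 0)
            + 422 / 100 * t ^ 2 / G) :=
          sum_le_sum fun x _ => sum_le_sum fun x' _ => hb x x'
      _ = 1001 / 1000 * a * X j + kc * (kc * (422 / 100 * t ^ 2 / G)) := by
          simp only [sum_add_distrib, sum_ite_eq, mem_univ, if_true, sum_const, card_univ,
            Fintype.card_fin, nsmul_eq_mul]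
          rw [← mul_sum, ← hXe]
      _ = _ := by ring
  have hs0 : ∀ j, 0 ≤ s j := fun j => sum_nonneg fun n hn => by
    split_ifs
    · exact le_rfl
    · exact hv n hn
  have hCS : ∀ j, X j ^ 2 ≤ s j * Y j := by
    intro j
    refine sum_sq_le_sum_mul_sum_of_sq_le_mul I (fun n hn => ?_) (fun n hn => ?_)
      (fun n hn => le_of_eq ?_)
    · split_ifs
      · exact le_rfl
      · exact hv n hn
    · exact mul_nonneg (hv n hn) (sq_nonneg _)
    · split_ifs with h
      · rw [h]; ring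
      · ring
  have hsum : ∑ j, s j ≤ 1001 / 1000 * G := by
    refine le_trans ?_ h1
    rw [sum_comm]
    refine sum_le_sum fun n hn => ?_
    rcases eq_or_ne (v n) 0 with hvn | hvn
    · rw [hvn]; simp
    by_cases hex : ∃ j, U j n ≠ 0
    · obtain ⟨j, hj⟩ := hex
      rw [sum_eq_single j]
      · rw [if_neg hj]
      · intro j' _ hjj
        rw [if_pos]
        by_contra hj'
        obtain ⟨x, _, hx⟩ := exists_ne_zero_of_sum_ne_zero hj
        obtain ⟨x', _, hx'⟩ := exists_ne_zero_of_sum_ne_zero hj'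
        rcases h6 n hn hvn (ix j x) (ix j' x') (by rw [F1_cl_ix, F1_cl_ix]; exact Ne.symm hjj)
          with h | h
        · exact hx h
        · exact hx' h
      · intro h; exact absurd (mem_univ j) h
    · push Not at hex
      rw [sum_eq_zero]
      · exact hv n hn
      · intro j _
        rw [if_pos (hex j)]
  have hlow : ∀ j, 22 / 100 * G ≤ s j := fun j =>
    F1_arith hG ha (by positivity) h5 (hXlow j) (hYup j) (hCS j) (hs0 j)
  have h7 : ∑ j : Fin 5, 22 / 100 * G ≤ ∑ j, s j := sum_le_sum fun j _ => hlow j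
  rw [sum_const, card_univ, Fintype.card_fin, nsmul_eq_mul] at h7
  push_cast at h7
  linarith

theorem F1_wt_support {a : ℝ} {n : ℕ} (hn : 0 < n) (h : wt 1 a n ≠ 0) :
    Real.exp (a + 1 / 2) < n ∧ (n : ℝ) < Real.exp (a + 1) := by
  have hn0 : (0 : ℝ) < n := by exact_mod_cast hn
  have hV : V ((Real.log n - a) / 1) ≠ 0 := by
    intro h0
    exact h (by rw [wt, h0, zero_div])
  rw [div_one] at hV
  constructor
  · by_contra hcon
    apply hV
    apply V_eq_zero_left
    have := Real.log_le_log hn0 (not_lt.1 hcon)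
    rw [Real.log_exp] at this
    linarith
  · by_contra hcon
    apply hV
    apply V_eq_zero_right
    have := Real.log_le_log (Real.exp_pos (a + 1)) (not_lt.1 hcon)
    rw [Real.log_exp] at this
    linarith

theorem S2_gen {k D₀ W : ℕ} {A B : Fin k → ℕ} (h : Std k D₀ A B W) (hk : 2 ≤ k)
    (hD : 4 * k + 4 ≤ D₀) (ε : ℝ) (hε : 0 < ε) (hε1 : ε ≤ 1 / 8) (K : ℕ) :
    ∃ a₁ : ℝ, ∀ a : ℝ, a₁ ≤ a → ∀ R : ℕ, 2 ≤ R → (R : ℝ) ≤ Real.exp (a / 2) →
      ∀ y : (PS W R → Option (Fin k)) → ℝ, (∀ σ, |y σ| ≤ 1) →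
      (∀ σ, y σ ≠ 0 → (dd (fun p : PS W R => (p : ℕ)) σ : ℝ) ≤ Real.exp ((1 / 4 - ε) * a)) →
      ∀ m : Fin k,
      |∑ n ∈ Ioc 0 (NN 1 a), wt 1 a n * lam (A m * n + B m) *
          FF (fun p : PS W R => (p : ℕ)) y (pat A B (PS W R) n) ^ 2
        - (W : ℝ) / Nat.totient W * pmass (a + Real.log (A m)) *
            Ex (fun p : PS W R => mu1 m (p : ℝ))
              (fun e => FF (fun p : PS W R => (p : ℕ)) y e ^ 2)| ≤ 1 / a ^ K :=
  T5_S2_gen_of bv h hk hD ε hε hε1 K

open Classical in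
/-- F1: two primes in different clusters, forms in standard position. -/
theorem cluster_std : ∃ kc D₀ : ℕ, 1 ≤ kc ∧ ∀ (A B : Fin (5 * kc) → ℕ) (W : ℕ),
    Std (5 * kc) D₀ A B W → ∀ N : ℕ, ∃ n ≥ N, ∃ i j, cl i ≠ cl j ∧
      (A i * n + B i).Prime ∧ (A j * n + B j).Prime := by
  obtain ⟨kc, D₀, hkc, hD, hmodel⟩ := model5 10 (1 / 2000) (by norm_num) (by norm_num)
  refine ⟨kc, D₀, hkc, fun A B W h N => ?_⟩
  by_contra hcon
  push Not at hcon
  have hk : 2 ≤ 5 * kc := by omega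
  obtain ⟨a₀, hm⟩ := hmodel W h.Wpos h.small
  obtain ⟨a₁, hS1⟩ := S1_gen h hD
  obtain ⟨a₂, hS2⟩ := S2_gen h hk hD (1 / 2000) (by norm_num) (by norm_num) 8
  obtain ⟨a₃, hmass⟩ := mass_bounds
  have hpm : ∀ᶠ a : ℝ in atTop, ∀ i, |pmass (a + Real.log (A i)) - mass a| ≤ 1 / 8000 :=
    eventually_all.2 fun i => F1_mass (A i) (h.Apos i) (by norm_num)
  set AB : ℕ := ∑ i, (A i + B i) with hAB
  obtain ⟨a, hpm, ha0, ha1, ha2, ha3, haN, haL, hak, hbig⟩ :=
    (hpm.and ((eventually_ge_atTop a₀).and ((eventually_ge_atTop a₁).and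
      ((eventually_ge_atTop a₂).and ((eventually_ge_atTop a₃).and
      ((eventually_ge_atTop (N : ℝ)).and
      ((eventually_ge_atTop (1000 * (Real.log (AB + 1) + 1))).and
      ((eventually_ge_atTop (kc : ℝ)).and (eventually_ge_atTop (100000 : ℝ)))))))))).exists
  have hapos : 0 < a := by linarith
  -- the parameter R
  obtain ⟨R, hRdef⟩ : ∃ R : ℕ, R = ⌊Real.exp (a / 4)⌋₊ := ⟨_, rfl⟩
  have hRle : (R : ℝ) ≤ Real.exp (a / 4) := by rw [hRdef]; exact Nat.floor_le (Real.exp_pos _).le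
  have hR2 : 2 ≤ R := by
    rw [hRdef]
    refine Nat.le_floor ?_
    have := Real.add_one_le_exp (a / 4)
    push_cast
    linarith
  have hRle2 : (R : ℝ) ≤ Real.exp (a / 2) := hRle.trans (Real.exp_le_exp.2 (by linarith))
  have hRle1 : (R : ℝ) ≤ Real.exp a := hRle.trans (Real.exp_le_exp.2 (by linarith))
  obtain ⟨y, E₀, E₁, hy1, hy2, hE0, hE1, hE0', hE1', hT, hz⟩ := hm a ha0 R hRdef
  obtain ⟨hM1, hM2⟩ := hmass a ha3
  -- constants
  have hφ : 0 < (Nat.totient W : ℝ) := by exact_mod_cast Nat.totient_pos.2 h.Wpos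
  have hW0 : 0 < (W : ℝ) := by exact_mod_cast h.Wpos
  obtain ⟨κi, hκi⟩ : ∃ κi : ℝ, κi = (W : ℝ) / Nat.totient W := ⟨_, rfl⟩
  obtain ⟨κ, hκ⟩ : ∃ κ : ℝ, κ = (Nat.totient W : ℝ) / W := ⟨_, rfl⟩
  have hκκ : κi * κ = 1 := by rw [hκi, hκ]; field_simp
  have hκi1 : 1 ≤ κi := by
    rw [hκi, le_div_iff₀ hφ, one_mul]
    exact_mod_cast Nat.totient_le W
  have hκ0 : 0 < κ := by rw [hκ]; positivity
  rw [← hκ] at hT hz
  have hS2' := hS2 a ha2 R hR2 hRle2
  rw [← hκi] at hS2'
  set M : ℝ := mass a with hM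
  set G : ℝ := M * E₀ with hG
  set t : ℝ := κi * M * E₁ with ht
  have hM0 : 0 < M := by linarith
  have hE00 : 0 < E₀ := by linarith
  have hE10 : 0 < E₁ := by linarith
  have hG0 : 0 < G := by positivity
  have hG1 : 1 / 8 ≤ G := by rw [hG]; nlinarith
  have hκi0 : 0 < κi := by linarith
  have ht0 : 0 < t := by positivity
  have ht1 : 1 / 16 ≤ t := by
    have h1 : 1 / 8 * (1 / 2) ≤ M * E₁ := mul_le_mul hM1 hE1 (by norm_num) hM0.le
    have h2 : M * E₁ ≤ κi * (M * E₁) := le_mul_of_one_le_left (by positivity) hκi1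
    rw [ht, mul_assoc]
    linarith
  have hkc0 : (1 : ℝ) ≤ kc := by exact_mod_cast hkc
  have hpmlow : ∀ i, 999 / 1000 * M ≤ pmass (a + Real.log (A i)) := fun i => by
    have := (abs_le.1 (hpm i)).1
    linarith
  have hpmup : ∀ i, pmass (a + Real.log (A i)) ≤ 1001 / 1000 * M := fun i => by
    have := (abs_le.1 (hpm i)).2
    linarith
  have hT' : 10 * a * G ≤ kc * t := by
    have h1 : κi * M * (10 * a * κ * E₀) ≤ κi * M * (kc * E₁) :=
      mul_le_mul_of_nonneg_left hT (by positivity)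
    have h2 : κi * M * (10 * a * κ * E₀) = 10 * a * (M * E₀) * (κi * κ) := by ring
    rw [h2, hκκ, mul_one] at h1
    rw [hG, ht]
    linarith
  have htG : 1 / 2 ≤ t ^ 2 / G := by
    rw [le_div_iff₀ hG0]
    have h1 : 10 * a * G ≤ a * t := hT'.trans (mul_le_mul_of_nonneg_right hak ht0.le)
    have h2 : 10 * G ≤ t := by
      by_contra hc
      push Not at hc
      nlinarith
    nlinarith
  have hlog : ∀ i, ∀ n : ℕ, 0 < n → wt 1 a n ≠ 0 → Real.log ((A i : ℝ) * n + B i)
      ≤ 1001 / 1000 * a := by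
    intro i n hn hw
    have hn2 := (F1_wt_support hn hw).2
    have hn1' : (1 : ℝ) ≤ n := by exact_mod_cast hn
    have hA : (0 : ℝ) < A i := by exact_mod_cast h.Apos i
    have hB : (0 : ℝ) < B i := by exact_mod_cast h.Bpos i
    have h1 : ((A i : ℝ) * n + B i) ≤ (AB + 1) * Real.exp (a + 1) := by
      have h2 : (A i : ℝ) + B i ≤ AB := by
        rw [hAB]
        push_cast
        exact single_le_sum (f := fun i => (A i : ℝ) + B i) (fun i _ => by positivity) (mem_univ i)
      have h3 : (B i : ℝ) ≤ B i * n := le_mul_of_one_le_right hB.le hn1'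
      calc (A i : ℝ) * n + B i ≤ A i * n + B i * n := by linarith
        _ = (A i + B i) * n := by ring
        _ ≤ (AB + 1) * Real.exp (a + 1) := by
          have : (0 : ℝ) ≤ AB := Nat.cast_nonneg _
          exact mul_le_mul (by linarith) hn2.le (by linarith) (by linarith)
    calc Real.log ((A i : ℝ) * n + B i) ≤ Real.log ((AB + 1) * Real.exp (a + 1)) :=
          Real.log_le_log (by positivity) h1
      _ = Real.log (AB + 1) + (a + 1) := by
          rw [Real.log_mul (by positivity) (Real.exp_pos _).ne', Real.log_exp]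
      _ ≤ _ := by linarith
  have hlam0 : ∀ n, 0 ≤ lam n := fun n => by
    unfold lam
    split_ifs
    · exact Real.log_natCast_nonneg n
    · exact le_rfl
  have hlamle : ∀ i, ∀ n : ℕ, 0 < n → wt 1 a n ≠ 0 → lam (A i * n + B i) ≤ 1001 / 1000 * a := by
    intro i n hn hw
    have h1 := hlog i n hn hw
    unfold lam
    split_ifs
    · push_cast
      exact h1
    · positivity
  have hlamne : ∀ i, ∀ n : ℕ, lam (A i * n + B i) ≠ 0 → (A i * n + B i).Prime := by
    intro i n hne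
    by_contra hc
    exact hne (by rw [lam, if_neg hc])
  have hinv : 1 / a ^ 8 ≤ 1 / 16000 := by
    have h1 : (16000 : ℝ) ≤ a ^ 8 := by
      calc (16000 : ℝ) ≤ a := by linarith
        _ = a ^ 1 := (pow_one a).symm
        _ ≤ a ^ 8 := pow_le_pow_right₀ (by linarith) (by norm_num)
    exact one_div_le_one_div_of_le (by norm_num) h1
  refine F1_core (kc := kc) (Ioc 0 (NN 1 a))
    (fun n => wt 1 a n * FF (fun p : PS W R => (p : ℕ)) y (pat A B (PS W R) n) ^ 2)
    (fun i n => lam (A i * n + B i)) (a := a) (G := G) (t := t) hkc hapos hG0 ht0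
    (fun n _ => mul_nonneg (wt_nonneg _ _ _) (sq_nonneg _)) (fun i n => hlam0 _) ?_ ?_ ?_ ?_ hT' ?_
  · -- S1
    have h1 := hS1 a ha1 R hR2 hRle1 y hy1 (fun σ hσ => (hy2 σ hσ).trans
      (Real.exp_le_exp.2 (by linarith)))
    have h2 := (abs_le.1 h1).2
    have h3 : M * Ex (fun p : PS W R => mu0 (p : ℝ))
        (fun e => FF (fun p : PS W R => (p : ℕ)) y e ^ 2) ≤ M * E₀ :=
      mul_le_mul_of_nonneg_left hE0' hM0.le
    have h4 : Real.exp (-a / 4) ≤ 1 / 8000 := by
      rw [show -a / 4 = -(a / 4) by ring, Real.exp_neg, ← one_div]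
      refine one_div_le_one_div_of_le (by norm_num) ?_
      have := Real.add_one_le_exp (a / 4)
      linarith
    rw [hG] at hG1 ⊢
    linarith
  · -- S2
    intro i
    have h1 := hS2' y hy1 (fun σ hσ => (hy2 σ hσ).trans (Real.exp_le_exp.2 (by linarith))) i
    have h2 := (abs_le.1 h1).1
    have h3 : 999 / 1000 * t ≤ κi * pmass (a + Real.log (A i)) *
        Ex (fun p : PS W R => mu1 i (p : ℝ))
          (fun e => FF (fun p : PS W R => (p : ℕ)) y e ^ 2) := by
      calc 999 / 1000 * t = κi * (999 / 1000 * M) * E₁ := by rw [ht]; ring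
        _ ≤ κi * pmass (a + Real.log (A i)) * E₁ :=
            mul_le_mul_of_nonneg_right (mul_le_mul_of_nonneg_left (hpmlow i) hκi0.le) hE10.le
        _ ≤ _ := mul_le_mul_of_nonneg_left (hE1' i)
            (mul_nonneg hκi0.le (le_trans (by positivity) (hpmlow i)))
    have h4 : ∑ n ∈ Ioc 0 (NN 1 a), wt 1 a n * FF (fun p : PS W R => (p : ℕ)) y
          (pat A B (PS W R) n) ^ 2 * lam (A i * n + B i)
        = ∑ n ∈ Ioc 0 (NN 1 a), wt 1 a n * lam (A i * n + B i) *
          FF (fun p : PS W R => (p : ℕ)) y (pat A B (PS W R) n) ^ 2 :=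
      sum_congr rfl fun n _ => by ring
    show 998 / 1000 * t ≤ ∑ n ∈ Ioc 0 (NN 1 a), wt 1 a n * FF (fun p : PS W R => (p : ℕ)) y
          (pat A B (PS W R) n) ^ 2 * lam (A i * n + B i)
    rw [h4]
    linarith
  · intro i n hn hvn
    exact hlamle i n (mem_Ioc.1 hn).1 (left_ne_zero_of_mul hvn)
  · -- off-diagonal terms
    intro i i' hii
    obtain ⟨z, hz1, hz2, hz3, hz4⟩ := hz i i' hii
    have ha3 : 0 < a ^ 3 := by positivity
    have hz1' : ∀ σ, |1 / a ^ 3 * z σ| ≤ 1 := fun σ => by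
      rw [abs_mul, abs_of_pos (by positivity : (0 : ℝ) < 1 / a ^ 3), one_div, inv_mul_le_iff₀ ha3,
        mul_one]
      exact hz1 σ
    have h1 := hS2' (fun σ => 1 / a ^ 3 * z σ) hz1' (fun σ hσ => hz2 σ (right_ne_zero_of_mul hσ)) i
    rw [F1_Ex_smul] at h1
    simp only [F1_smul] at h1
    set Ez := Ex (fun p : PS W R => mu1 i (p : ℝ))
      (fun e => FF (fun p : PS W R => (p : ℕ)) z e ^ 2) with hEz
    have h2 : ∑ n ∈ Ioc 0 (NN 1 a), wt 1 a n * lam (A i * n + B i) *
          (1 / a ^ 3 * FF (fun p : PS W R => (p : ℕ)) z (pat A B (PS W R) n)) ^ 2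
        = 1 / a ^ 6 * ∑ n ∈ Ioc 0 (NN 1 a), wt 1 a n * lam (A i * n + B i) *
          FF (fun p : PS W R => (p : ℕ)) z (pat A B (PS W R) n) ^ 2 := by
      rw [mul_sum]
      refine sum_congr rfl fun n _ => ?_
      field_simp
    rw [h2] at h1
    have h3 : ∑ n ∈ Ioc 0 (NN 1 a), wt 1 a n * lam (A i * n + B i) *
          FF (fun p : PS W R => (p : ℕ)) z (pat A B (PS W R) n) ^ 2
        ≤ κi * pmass (a + Real.log (A i)) * Ez + 1 / a ^ 2 := by
      have h4 := (abs_le.1 h1).2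
      have h5 : 1 / a ^ 6 * (∑ n ∈ Ioc 0 (NN 1 a), wt 1 a n * lam (A i * n + B i) *
          FF (fun p : PS W R => (p : ℕ)) z (pat A B (PS W R) n) ^ 2)
          ≤ 1 / a ^ 6 * (κi * pmass (a + Real.log (A i)) * Ez + 1 / a ^ 2) := by
        have e1 : κi * pmass (a + Real.log (A i)) * ((1 / a ^ 3) ^ 2 * Ez)
            = 1 / a ^ 6 * (κi * pmass (a + Real.log (A i)) * Ez) := by
          field_simp
        have e2 : 1 / a ^ 8 = 1 / a ^ 6 * (1 / a ^ 2) := by
          field_simp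
        rw [e1, e2] at h4
        rw [mul_add]
        linarith
      exact le_of_mul_le_mul_left h5 (by positivity)
    have hEzle : Ez ≤ 4.2 * κi * E₁ ^ 2 / (a * E₀) := by
      rw [le_div_iff₀ (by positivity)]
      have h5 : a / 4 * κ * E₀ * Ez ≤ (1 + 100 * (1 / 2000)) * E₁ ^ 2 := hz4
      have h6 : κi * (a / 4 * κ * E₀ * Ez) ≤ κi * ((1 + 100 * (1 / 2000)) * E₁ ^ 2) :=
        mul_le_mul_of_nonneg_left h5 hκi0.le
      have h7 : κi * (a / 4 * κ * E₀ * Ez) = (κi * κ) * (Ez * (a * E₀) / 4) := by ring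
      rw [h7, hκκ, one_mul] at h6
      linarith
    have h4 : κi * pmass (a + Real.log (A i)) * Ez ≤ 4.2042 * (t ^ 2 / G) / a := by
      have hb0 : 0 ≤ 4.2 * κi * E₁ ^ 2 / (a * E₀) := by positivity
      calc κi * pmass (a + Real.log (A i)) * Ez
          ≤ κi * pmass (a + Real.log (A i)) * (4.2 * κi * E₁ ^ 2 / (a * E₀)) :=
            mul_le_mul_of_nonneg_left hEzle
              (mul_nonneg hκi0.le (le_trans (by positivity) (hpmlow i)))
        _ ≤ κi * (1001 / 1000 * M) * (4.2 * κi * E₁ ^ 2 / (a * E₀)) :=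
            mul_le_mul_of_nonneg_right (mul_le_mul_of_nonneg_left (hpmup i) hκi0.le) hb0
        _ = _ := by
            rw [ht, hG]
            field_simp
            norm_num
    have h5 : ∑ n ∈ Ioc 0 (NN 1 a), wt 1 a n * FF (fun p : PS W R => (p : ℕ)) y
          (pat A B (PS W R) n) ^ 2 * (lam (A i * n + B i) * lam (A i' * n + B i'))
        ≤ 1001 / 1000 * a * ∑ n ∈ Ioc 0 (NN 1 a), wt 1 a n * lam (A i * n + B i) *
          FF (fun p : PS W R => (p : ℕ)) z (pat A B (PS W R) n) ^ 2 := by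
      rw [mul_sum]
      refine sum_le_sum fun n hn => ?_
      have hn0 := (mem_Ioc.1 hn).1
      have hw0 : 0 ≤ wt 1 a n := wt_nonneg _ _ _
      have hl0 := hlam0 (A i * n + B i)
      have hl0' := hlam0 (A i' * n + B i')
      have hrhs : 0 ≤ 1001 / 1000 * a * (wt 1 a n * lam (A i * n + B i) *
          FF (fun p : PS W R => (p : ℕ)) z (pat A B (PS W R) n) ^ 2) := by positivity
      rcases eq_or_ne (wt 1 a n) 0 with hw | hw
      · rw [hw]; simp
      rcases eq_or_ne (lam (A i * n + B i)) 0 with hl | hl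
      · rw [hl]; simp
      rcases eq_or_ne (lam (A i' * n + B i')) 0 with hl' | hl'
      · rw [hl', mul_zero, mul_zero]; exact hrhs
      have hp := hlamne i n hl
      have hp' := hlamne i' n hl'
      have hnR : R < n := by
        have h6 := (F1_wt_support hn0 hw).1
        have h7 : (R : ℝ) < n := by
          refine lt_of_le_of_lt (hRle1.trans (Real.exp_le_exp.2 ?_)) h6
          linarith
        exact_mod_cast h7
      have hav : ∀ p : PS W R, pat A B (PS W R) n p ≠ some i ∧ pat A B (PS W R) n p ≠ some i' := by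
        intro p
        have hpp := mem_PS.1 p.2
        have key : ∀ i₀, (A i₀ * n + B i₀).Prime → pat A B (PS W R) n p ≠ some i₀ := by
          intro i₀ hpr hpat
          have h7 := F1_pat hpat
          rw [Nat.prime_dvd_prime_iff_eq hpp.2.1 hpr] at h7
          have h8 : n ≤ A i₀ * n := Nat.le_mul_of_pos_left n (h.Apos i₀)
          have h9 := hpp.1
          omega
        exact ⟨key i hp, key i' hp'⟩
      rw [hz3 _ hav]
      have h8 := hlamle i' n hn0 hw
      have h9 : 0 ≤ wt 1 a n * lam (A i * n + B i) *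
          FF (fun p : PS W R => (p : ℕ)) y (pat A B (PS W R) n) ^ 2 := by positivity
      have h10 := mul_le_mul_of_nonneg_right h8 h9
      linarith
    show ∑ n ∈ Ioc 0 (NN 1 a), wt 1 a n * FF (fun p : PS W R => (p : ℕ)) y
          (pat A B (PS W R) n) ^ 2 * (lam (A i * n + B i) * lam (A i' * n + B i'))
        ≤ 422 / 100 * t ^ 2 / G
    refine h5.trans ?_
    have h6 : 1001 / 1000 * a * (∑ n ∈ Ioc 0 (NN 1 a), wt 1 a n * lam (A i * n + B i) *
          FF (fun p : PS W R => (p : ℕ)) z (pat A B (PS W R) n) ^ 2)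
        ≤ 1001 / 1000 * a * (4.2042 * (t ^ 2 / G) / a + 1 / a ^ 2) :=
      mul_le_mul_of_nonneg_left (by linarith) (by positivity)
    refine h6.trans ?_
    have h7 : 1001 / 1000 * a * (4.2042 * (t ^ 2 / G) / a + 1 / a ^ 2)
        = 1001 / 1000 * 4.2042 * (t ^ 2 / G) + 1001 / 1000 * (1 / a) := by
      field_simp
    rw [h7]
    have h8 : 1 / a ≤ 1 / 1000 := one_div_le_one_div_of_le (by norm_num) (by linarith)
    have h9 : 422 / 100 * t ^ 2 / G = 422 / 100 * (t ^ 2 / G) := by ring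
    rw [h9]
    linarith
  · intro n hn hvn i i' hcl
    have hn0 := (mem_Ioc.1 hn).1
    have hw : wt 1 a n ≠ 0 := left_ne_zero_of_mul hvn
    have hNn : N ≤ n := by
      have h6 := (F1_wt_support hn0 hw).1
      have h7 := Real.add_one_le_exp (a + 1 / 2)
      have h8 : (N : ℝ) ≤ n := by linarith
      exact_mod_cast h8
    by_contra hc
    push Not at hc
    exact hcon n hNn i i' hcl (hlamne i n hc.1) (hlamne i' n hc.2)

end Pool.Agent.helper85.FC
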