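import Pool.Agent.helper14.MT.SAB
import Pool.Agent.helper22.MT.SC
import Pool.Agent.helper22.MT.GJ
import Pool.Agent.helper22.MT.SC3
import Pool.Agent.helper22.MT.SD2
import Pool.Agent.helper44.MT.SD1
import Pool.Agent.helper93.FC.M0
import Pool.Agent.helper93.FC.M3
import Pool.Agent.helper93.FC.M4
import Pool.Agent.helper70.FC.M1
import Pool.Agent.helper70.FC.M2

/-!
# Five coefficients (MP_bf63dc_nt): the numbers (module M5)
-/

namespace Pool.Agent.helper85.FC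

open Finset Pool.Agent.helper39.MT

/-! ### the sum of `1/(p-1)^2` -/

theorem M5_sum_sq_Ioc {D R : ℕ} (hD : 2 ≤ D) (hR : D ≤ R) :
    ∑ n ∈ Ioc D R, (1 / ((n : ℝ) - 1)) ^ 2 ≤ 1 / ((D : ℝ) - 1) - 1 / ((R : ℝ) - 1) := by
  induction R, hR using Nat.le_induction with
  | base => simp
  | succ R hR ih =>
    rw [← Finset.insert_Ioc_right_eq_Ioc_add_one (by omega), sum_insert (by simp)]
    have hR2 : (2 : ℝ) ≤ R := by exact_mod_cast hD.trans hR
    have h1 : (1 / (((R + 1 : ℕ) : ℝ) - 1)) ^ 2 ≤ 1 / ((R : ℝ) - 1) - 1 / (((R + 1 : ℕ) : ℝ) - 1) := by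
      push_cast
      rw [add_sub_cancel_right, div_sub_div _ _ (by linarith) (by linarith), one_div, inv_pow,
        ← one_div, div_le_div_iff₀ (by positivity) (by nlinarith)]
      nlinarith
    linarith

theorem M5_SF_eta_le {W R D : ℕ} (hD : 2 ≤ D) (hW : ∀ p : ℕ, p.Prime → p ≤ D → p ∣ W) :
    ∑ p : PS W R, (qP p) ^ 2 ≤ 2 / D := by
  have h1 : ∑ p : PS W R, (qP p) ^ 2 = ∑ p ∈ PS W R, (1 / ((p : ℝ) - 1)) ^ 2 := by
    rw [← Finset.sum_coe_sort (PS W R) (fun p : ℕ => (1 / ((p : ℝ) - 1)) ^ 2)]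
    rfl
  rw [h1]
  have hD2 : (2 : ℝ) ≤ D := by exact_mod_cast hD
  rcases le_or_gt D R with hR | hR
  · have hsub : PS W R ⊆ Ioc D R := by
      intro p hp
      rw [mem_PS] at hp
      rw [mem_Ioc]
      refine ⟨?_, hp.1⟩
      by_contra hcon
      exact hp.2.2 (hW p hp.2.1 (not_lt.1 hcon))
    have hR2 : (2 : ℝ) ≤ R := by exact_mod_cast hD.trans hR
    have h2 := (sum_le_sum_of_subset_of_nonneg hsub
      (fun (i : ℕ) _ _ => sq_nonneg (1 / ((i : ℝ) - 1)))).trans (M5_sum_sq_Ioc hD hR)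
    have h3 : 0 ≤ 1 / ((R : ℝ) - 1) := by
      apply div_nonneg zero_le_one; linarith
    have h4 : 1 / ((D : ℝ) - 1) ≤ 2 / D := by
      rw [div_le_div_iff₀ (by linarith) (by linarith)]
      linarith
    linarith
  · have hemp : PS W R = ∅ := by
      rw [eq_empty_iff_forall_notMem]
      intro p hp
      rw [mem_PS] at hp
      exact hp.2.2 (hW p hp.2.1 (by omega))
    rw [hemp, sum_empty]
    positivity

/-! ### properties of the weights -/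

theorem M5_supp_dd {P : Finset ℕ} (hP : ∀ p ∈ P, p.Prime) {k : ℕ} (σ : P → Option (Fin k))
    {X : ℝ} (h : ∑ p ∈ supp σ, lP p ≤ X) :
    (dd (fun p : P => (p : ℕ)) σ : ℝ) ≤ Real.exp X := by
  have h1 : (0 : ℝ) < dd (fun p : P => (p : ℕ)) σ := by
    rw [dd]
    exact_mod_cast prod_pos fun p _ => by
      split_ifs
      · exact one_pos
      · exact (hP p p.2).pos
  have h2 : Real.log (dd (fun p : P => (p : ℕ)) σ) = ∑ p ∈ supp σ, lP p := by
    rw [dd, Nat.cast_prod, Real.log_prod]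
    · rw [supp, sum_filter]
      refine sum_congr rfl fun p _ => ?_
      by_cases hp : σ p = none
      · simp [hp]
      · simp [hp, lP]
    · intro p _
      split_ifs
      · simp
      · exact_mod_cast (hP p p.2).ne_zero
  rw [← h2, Real.log_le_iff_le_exp h1] at h
  exact h

theorem M5_SF_lP_nonneg {P : Finset ℕ} (p : P) : 0 ≤ lP p := Real.log_natCast_nonneg _

theorem M5_SF_gP_nonneg {P : Finset ℕ} {J : ℕ} {θ : ℝ} (S : Finset P) : 0 ≤ gP J θ S := gJ_nonneg _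

theorem M5_SF_gP_le_one {P : Finset ℕ} {J : ℕ} {θ : ℝ} (S : Finset P) : gP J θ S ≤ 1 :=
  gJ_le_one _

theorem M5_SF_gP_anti {P : Finset ℕ} {J : ℕ} {θ : ℝ} (S : Finset P) (p : P) (hp : p ∉ S) :
    gP J θ (insert p S) ≤ gP J θ S := by
  apply gJ_anti
  rw [sum_insert hp]
  linarith [M5_SF_lP_nonneg p]

theorem M5_SF_gP_sq_anti {P : Finset ℕ} {J : ℕ} {θ : ℝ} (S : Finset P) (p : P) (hp : p ∉ S) :
    gP J θ (insert p S) ^ 2 ≤ gP J θ S ^ 2 :=
  pow_le_pow_left₀ (M5_SF_gP_nonneg _) (M5_SF_gP_anti S p hp) 2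

theorem M5_SF_one_le_SS {ι : Type*} [Fintype ι] [DecidableEq ι] {w : ι → ℝ} (hw : ∀ p, 0 ≤ w p)
    {f : Finset ι → ℝ} (hf : ∀ S, 0 ≤ f S) (hf0 : f ∅ = 1) : 1 ≤ SS w f := by
  have h := single_le_sum (f := fun S : Finset ι => f S * ∏ p ∈ S, w p)
    (fun S _ => mul_nonneg (hf S) (prod_nonneg fun p _ => hw p)) (mem_univ ∅)
  simpa [SS, hf0] using h

theorem M5_SF_SS_mono {ι : Type*} [Fintype ι] [DecidableEq ι] {w w' : ι → ℝ}
    (hw : ∀ p, 0 ≤ w p) (hww : ∀ p, w p ≤ w' p)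
    {f : Finset ι → ℝ} (hf : ∀ S, 0 ≤ f S) : SS w f ≤ SS w' f := by
  refine sum_le_sum fun S _ => mul_le_mul_of_nonneg_left ?_ (hf S)
  exact prod_le_prod (fun p _ => hw p) (fun p _ => hww p)

theorem M5_SF_prod_one_sub {ι : Type*} (s : Finset ι) {x : ι → ℝ} (h0 : ∀ p ∈ s, 0 ≤ x p)
    (h1 : ∀ p ∈ s, x p ≤ 1) : 1 - ∑ p ∈ s, x p ≤ ∏ p ∈ s, (1 - x p) := by
  classical
  induction s using Finset.induction_on with
  | empty => simp
  | insert a s ha ih =>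
    rw [sum_insert ha, prod_insert ha]
    have h2 := ih (fun p hp => h0 p (mem_insert_of_mem hp)) (fun p hp => h1 p (mem_insert_of_mem hp))
    have h3 : 0 ≤ ∑ p ∈ s, x p := sum_nonneg fun p hp => h0 p (mem_insert_of_mem hp)
    have h4 := h0 a (mem_insert_self a s)
    have h5 := h1 a (mem_insert_self a s)
    nlinarith

/-! ### the upper bound for `Ex mu0` -/

theorem M5_upper_final {P : Finset ℕ} {k : ℕ} (hP : ∀ p ∈ P, 2 * (k : ℝ) + 2 ≤ p) (J : ℕ)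
    (θ Λ : ℝ) :
    Ex (fun p : P => mu0 (p : ℝ)) (fun e => FF (fun p : P => (p : ℕ))
        (yy (k := k) lP Λ (gP J θ)) e ^ 2)
      ≤ (Real.exp (∑ p : P, qP p ^ 2) * SS (qP (P := P)) (fun S => gP J θ S ^ 2)) ^ k := by
  have hk0 : (0 : ℝ) ≤ k := Nat.cast_nonneg k
  have hq : ∀ p : P, 0 ≤ qP p := by
    intro p
    have := hP p p.2
    unfold qP
    exact div_nonneg zero_le_one (by linarith)
  have hg2 : ∀ S : Finset P, 0 ≤ gP J θ S ^ 2 := fun S => sq_nonneg _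
  refine (form_upper (fun p : P => (p : ℕ)) (fun p => hP p p.2) _).trans ?_
  have hb : ∀ p : P, ((p : ℕ) : ℝ) / (((p : ℕ) : ℝ) - 1) ^ 2 = qP p * (1 + qP p) := by
    intro p
    have := hP p p.2
    have h1 : ((p : ℕ) : ℝ) - 1 ≠ 0 := by linarith
    unfold qP
    field_simp
    ring
  have hb0 : ∀ p : P, 0 ≤ qP p * (1 + qP p) := fun p => mul_nonneg (hq p) (by linarith [hq p])
  calc ∑ σ : P → Option (Fin k),
          (∏ p, (if σ p = none then 1 else ((p : ℕ) : ℝ) / (((p : ℕ) : ℝ) - 1) ^ 2))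
            * yy lP Λ (gP J θ) σ ^ 2
      ≤ ∑ σ : P → Option (Fin k), (∏ p, (if σ p = none then 1 else qP p * (1 + qP p)))
          * ∏ i, gP J θ (cls σ i) ^ 2 := by
        refine sum_le_sum fun σ _ => ?_
        have h1 : (∏ p, (if σ p = none then 1 else ((p : ℕ) : ℝ) / (((p : ℕ) : ℝ) - 1) ^ 2))
            = ∏ p, (if σ p = none then 1 else qP p * (1 + qP p)) :=
          prod_congr rfl fun p _ => by rw [hb]
        rw [h1]
        refine mul_le_mul_of_nonneg_left ?_ (prod_nonneg fun p _ => by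
          split_ifs
          · exact zero_le_one
          · exact hb0 p)
        rw [yy, prod_pow, mul_pow]
        refine mul_le_of_le_one_right (sq_nonneg _) ?_
        split_ifs <;> norm_num
    _ ≤ SS (fun p : P => qP p * (1 + qP p)) (fun S => gP J θ S ^ 2) ^ k :=
        sum_labels_le hb0 hg2
    _ ≤ _ := by
        refine pow_le_pow_left₀ ?_ (SS_one_add_le hq hg2 M5_SF_gP_sq_anti) k
        exact sum_nonneg fun S _ => mul_nonneg (hg2 S) (prod_nonneg fun p _ => hb0 p)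

/-! ### the lower bound for `Ex mu1` -/

theorem M5_lower_final {P : Finset ℕ} {k : ℕ} (hk : 2 ≤ k)
    (hP : ∀ p ∈ P, 2 * (k : ℝ) + 2 ≤ p) (m : Fin k) (J : ℕ)
    {θ Λ : ℝ} (hθ : 0 ≤ θ) (hΛ : 2 ^ J * θ < Λ)
    {X : ℝ} (hX : X ≤ SS (qP (P := P)) (gP J θ) ^ 2
        * ((1 - ((k : ℝ) ^ 2 + 2 * k) * ∑ p : P, qP p ^ 2)
          * SS (fun p : P => qP p * (1 - 2 * k * qP p)) (fun S => gP J θ S ^ 2) ^ (k - 1)
        - k * SS (fun p : P => qP p * (1 - 2 * k * qP p)) (fun S => gP J θ S ^ 2) ^ (k - 2)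
          * SS (fun p : P => qP p * (1 - 2 * k * qP p)) (fun S => gP J θ S ^ 2 * ∑ p ∈ S, lP p)
            / (Λ - 2 ^ J * θ))) (hX0 : 0 ≤ X) :
    (1 - k * ∑ p : P, qP p ^ 2) * X ≤ Ex (fun p : P => mu1 m (p : ℝ)) (fun e => FF (fun p : P => (p : ℕ))
        (yy (k := k) lP Λ (gP J θ)) e ^ 2) := by
  have hk0 : (0 : ℝ) ≤ k := Nat.cast_nonneg k
  have hk2 : (2 : ℝ) ≤ k := by exact_mod_cast hk
  have hp1 : ∀ p : P, 2 * (k : ℝ) + 1 ≤ ((p : ℕ) : ℝ) - 1 := fun p => by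
    have := hP p p.2
    linarith
  have hq : ∀ p : P, 0 ≤ qP p := fun p => by
    unfold qP
    exact div_nonneg zero_le_one (by linarith [hp1 p])
  have hkq : ∀ p : P, 2 * k * qP p ≤ 1 := fun p => by
    unfold qP
    rw [mul_one_div, div_le_one (by linarith [hp1 p])]
    linarith [hp1 p]
  have ha : ∀ p : P, 0 ≤ qP p * (1 - 2 * k * qP p) := fun p =>
    mul_nonneg (hq p) (by linarith [hkq p])
  have haq : ∀ p : P, qP p * (1 - 2 * k * qP p) ≤ qP p := fun p => by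
    refine mul_le_of_le_one_right (hq p) ?_
    have : 0 ≤ 2 * k * qP p := mul_nonneg (by positivity) (hq p)
    linarith
  have hF := form_ge hk m ha haq M5_SF_lP_nonneg (g := gP J θ) M5_SF_gP_nonneg M5_SF_gP_anti hΛ
    (fun S hS => gJ_eq_zero hθ hS)
  have hG := form_lower (by omega : 1 ≤ k) (fun p : P => (p : ℕ)) (fun p => hP p p.2) m
    (yy (k := k) lP Λ (gP J θ))
  refine le_trans ?_ hG
  have hc : ∀ p : P, 0 ≤ 1 - k * qP p ^ 2 := fun p => by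
    have h1 : k * qP p ^ 2 = (k * qP p) * qP p := by ring
    have h2 : k * qP p ≤ 1 := by
      have : 0 ≤ k * qP p := mul_nonneg hk0 (hq p)
      linarith [hkq p]
    have h3 : qP p ≤ 1 := by
      have h4 : 0 ≤ k * qP p := mul_nonneg hk0 (hq p)
      nlinarith [hkq p, hq p]
    rw [h1]
    nlinarith [hq p]
  have hc1 : ∀ p : P, k * qP p ^ 2 ≤ 1 := fun p => by linarith [hc p]
  have hprod : 1 - k * ∑ p : P, qP p ^ 2 ≤ ∏ p : P, (1 - k * qP p ^ 2) := by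
    refine le_trans ?_ (M5_SF_prod_one_sub univ (fun p _ => mul_nonneg hk0 (sq_nonneg (qP p)))
      (fun p _ => hc1 p))
    rw [← mul_sum]
  have hX2 : X ≤ ∑ t : P → Option (Fin k), (∏ p, Hl m 1 (qP p * (1 - 2 * k * qP p)) (t p))
      * zz m qP (yy (k := k) lP Λ (gP J θ)) t ^ 2 := hX.trans hF
  have hfac : ∀ t : P → Option (Fin k),
      (∏ p : P, Hl m (1 - k / (((p : ℕ) : ℝ) - 1) ^ 2)
          (1 / (((p : ℕ) : ℝ) - 1) * (1 - 2 * k / (((p : ℕ) : ℝ) - 1))) (t p))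
        = (∏ p : P, (1 - k * qP p ^ 2)) * ∏ p, Hl m 1 (qP p * (1 - 2 * k * qP p)) (t p) := by
    intro t
    rw [← prod_mul_distrib]
    refine prod_congr rfl fun p _ => ?_
    have e1 : (k : ℝ) / (((p : ℕ) : ℝ) - 1) ^ 2 = k * qP p ^ 2 := by
      unfold qP; rw [div_pow, one_pow, mul_one_div]
    have e2 : 1 / (((p : ℕ) : ℝ) - 1) * (1 - 2 * k / (((p : ℕ) : ℝ) - 1))
        = qP p * (1 - 2 * k * qP p) := by
      unfold qP; rw [mul_one_div]
    rw [e1, e2]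
    cases t p with
    | none => simp [Hl]
    | some i =>
      simp only [Hl]
      split_ifs
      · simp
      · ring
  have hzz : (fun p : P => 1 / (((p : ℕ) : ℝ) - 1)) = qP := rfl
  calc (1 - k * ∑ p : P, qP p ^ 2) * X ≤ (∏ p : P, (1 - k * qP p ^ 2)) * X :=
        mul_le_mul_of_nonneg_right hprod hX0
    _ ≤ (∏ p : P, (1 - k * qP p ^ 2)) * ∑ t : P → Option (Fin k),
          (∏ p, Hl m 1 (qP p * (1 - 2 * k * qP p)) (t p))
            * zz m qP (yy (k := k) lP Λ (gP J θ)) t ^ 2 :=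
        mul_le_mul_of_nonneg_left hX2 (prod_nonneg fun p _ => hc p)
    _ = _ := by
        rw [mul_sum]
        refine sum_congr rfl fun t _ => ?_
        rw [hfac t, hzz, mul_assoc]



/-! ### the numbers -/

theorem M5_pow_ratio {k : ℕ} {β βa η : ℝ} (hk : 2 ≤ k) (hβ0 : 0 < β) (hη0 : 0 ≤ η)
    (hkη : 2 * (k : ℝ) * η ≤ 1) (hβa : (1 - 2 * k * η) * β ≤ βa) :
    (1 - 2 * (k : ℝ) ^ 2 * η) * β ^ (k - 1) ≤ βa ^ (k - 1) := by
  have hk0 : (0 : ℝ) ≤ k := Nat.cast_nonneg k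
  have h1 : ((1 - 2 * k * η) * β) ^ (k - 1) ≤ βa ^ (k - 1) :=
    pow_le_pow_left₀ (mul_nonneg (by linarith) hβ0.le) hβa _
  have h2 := one_add_mul_le_pow (a := -(2 * k * η)) (by linarith) (k - 1)
  have h3 : ((k - 1 : ℕ) : ℝ) ≤ k := by exact_mod_cast Nat.sub_le k 1
  have h5 : ((k - 1 : ℕ) : ℝ) * (2 * k * η) ≤ k * (2 * k * η) :=
    mul_le_mul_of_nonneg_right h3 (by positivity)
  have h4 : 1 - 2 * (k : ℝ) ^ 2 * η ≤ (1 + -(2 * k * η)) ^ (k - 1) := by nlinarith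
  calc (1 - 2 * (k : ℝ) ^ 2 * η) * β ^ (k - 1) ≤ (1 + -(2 * k * η)) ^ (k - 1) * β ^ (k - 1) :=
        mul_le_mul_of_nonneg_right h4 (by positivity)
    _ = ((1 - 2 * k * η) * β) ^ (k - 1) := by rw [mul_pow, ← sub_eq_add_neg]
    _ ≤ _ := h1

theorem M5_num1 {C₁ κ θ L α β βa mom η u ε : ℝ} {J k : ℕ} (hk : 2 ≤ k) (hC : 1 ≤ C₁)
    (hε : 0 < ε) (hε1 : ε ≤ 1 / 100)
    (hu : u = ε / (16 * C₁ * (J + 1))) (hκ : 0 < κ) (hL : 0 < L) (hθ : θ = u * L / k)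
    (hη0 : 0 ≤ η) (hη : ((k : ℝ) ^ 2 + 2 * k) * η ≤ ε / 100)
    (hΛ : 2 ^ J * θ ≤ L / 2)
    (hβ1 : 3 / 4 * (κ * θ) ≤ β) (hβa : (1 - 2 * k * η) * β ≤ βa)
    (hmom : mom ≤ (J + 1) * C₁ * (κ * θ ^ 2)) :
    (1 - ε / 2) * (α ^ 2 * β ^ (k - 1)) ≤ α ^ 2 * ((1 - ((k : ℝ) ^ 2 + 2 * k) * η) * βa ^ (k - 1)
      - k * βa ^ (k - 2) * mom / (L - 2 ^ J * θ)) := by
  have hk2 : (2 : ℝ) ≤ k := by exact_mod_cast hk
  have hJ0 : (0 : ℝ) ≤ J := Nat.cast_nonneg J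
  have hC0 : 0 < C₁ := by linarith
  have hu0 : 0 < u := by rw [hu]; positivity
  have hθ0 : 0 < θ := by rw [hθ]; positivity
  have hβ0 : 0 < β := lt_of_lt_of_le (by positivity) hβ1
  have hkη : (k : ℝ) * η ≤ ε / 100 := by nlinarith
  have hkη2 : 2 * (k : ℝ) ^ 2 * η ≤ ε / 50 := by nlinarith
  have hkθ : (k : ℝ) * θ = u * L := by rw [hθ]; field_simp
  have hβa2 : κ * θ / 2 ≤ βa := by
    have h6 : (3 / 4 : ℝ) * β ≤ (1 - 2 * k * η) * β :=
      mul_le_mul_of_nonneg_right (by linarith) hβ0.le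
    have h7 : 0 < κ * θ := by positivity
    nlinarith
  have hβa0 : 0 < βa := lt_of_lt_of_le (by positivity) hβa2
  have hpow1 : βa ^ (k - 1) = βa ^ (k - 2) * βa := by
    rw [← pow_succ]; congr 1; omega
  have h1 : k * βa ^ (k - 2) * mom / (L - 2 ^ J * θ) ≤ ε / 4 * βa ^ (k - 1) := by
    rw [div_le_iff₀ (by linarith), hpow1]
    have h2 : (k : ℝ) * mom ≤ ε / 4 * βa * (L - 2 ^ J * θ) := by
      have h3 : (k : ℝ) * mom ≤ (J + 1) * C₁ * κ * θ * (u * L) := by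
        rw [← hkθ]
        calc (k : ℝ) * mom ≤ k * ((J + 1) * C₁ * (κ * θ ^ 2)) :=
              mul_le_mul_of_nonneg_left hmom (by positivity)
          _ = _ := by ring
      have h4 : (J + 1) * C₁ * κ * θ * (u * L) = ε * (κ * θ * L / 16) := by
        rw [hu]; field_simp
      have h8 : κ * θ / 2 * (L / 2) ≤ βa * (L - 2 ^ J * θ) :=
        mul_le_mul hβa2 (by linarith) (by positivity) hβa0.le
      have h9 := mul_le_mul_of_nonneg_left h8 hε.le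
      nlinarith
    calc k * βa ^ (k - 2) * mom = βa ^ (k - 2) * (k * mom) := by ring
      _ ≤ βa ^ (k - 2) * (ε / 4 * βa * (L - 2 ^ J * θ)) :=
          mul_le_mul_of_nonneg_left h2 (by positivity)
      _ = _ := by ring
  have h2 : (1 - ε / 100) * βa ^ (k - 1) ≤ (1 - ((k : ℝ) ^ 2 + 2 * k) * η) * βa ^ (k - 1) :=
    mul_le_mul_of_nonneg_right (by linarith) (by positivity)
  have h3 := M5_pow_ratio hk hβ0 hη0 (by linarith) hβa
  have h4 : (1 - ε / 50) * β ^ (k - 1) ≤ βa ^ (k - 1) :=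
    le_trans (mul_le_mul_of_nonneg_right (by linarith) (by positivity)) h3
  have h5 : (1 - ε / 2) * β ^ (k - 1) ≤ (1 - ((k : ℝ) ^ 2 + 2 * k) * η) * βa ^ (k - 1)
      - k * βa ^ (k - 2) * mom / (L - 2 ^ J * θ) := by
    have h6 : (1 - ε / 100 - ε / 4) * ((1 - ε / 50) * β ^ (k - 1))
        ≤ (1 - ε / 100 - ε / 4) * βa ^ (k - 1) :=
      mul_le_mul_of_nonneg_left h4 (by linarith)
    have h7 : (1 - ε / 2) * β ^ (k - 1) ≤ (1 - ε / 100 - ε / 4) * ((1 - ε / 50) * β ^ (k - 1)) := by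
      rw [← mul_assoc]
      refine mul_le_mul_of_nonneg_right ?_ (by positivity)
      nlinarith
    linarith
  calc (1 - ε / 2) * (α ^ 2 * β ^ (k - 1)) = α ^ 2 * ((1 - ε / 2) * β ^ (k - 1)) := by ring
    _ ≤ _ := mul_le_mul_of_nonneg_left h5 (sq_nonneg α)

theorem M5_exp_le {x : ℝ} (h0 : 0 ≤ x) (h1 : x ≤ 1 / 2) : Real.exp x ≤ 1 + 2 * x := by
  have h2 := Real.one_sub_le_exp_neg x
  rw [Real.exp_neg] at h2
  have h3 : 0 < Real.exp x := Real.exp_pos _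
  have h4 : (1 - x) * Real.exp x ≤ 1 := by
    calc (1 - x) * Real.exp x ≤ (Real.exp x)⁻¹ * Real.exp x :=
          mul_le_mul_of_nonneg_right h2 h3.le
      _ = 1 := inv_mul_cancel₀ h3.ne'
  have h5 : Real.exp x ≤ 2 := by nlinarith
  nlinarith

theorem M5_num2 {C₁ κ θ a α β η u ε T : ℝ} {J kc : ℕ} (hkc : 1 ≤ kc) (hC : 1 ≤ C₁)
    (hε : 0 < ε) (hε1 : ε ≤ 1 / 100) (hT : 2560 * T * C₁ ^ 2 / ε ^ 2 ≤ J + 1)
    (hu : u = ε / (16 * C₁ * (J + 1))) (hκ : 0 < κ) (ha : 0 < a)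
    (hθ : θ = u * (ε * a) / ((5 * kc : ℕ) : ℝ))
    (hη0 : 0 ≤ η) (hη : ((5 * kc : ℕ) : ℝ) * η ≤ ε / 100)
    (hα : κ * θ * (J + 2) / 2 ≤ α) (hβ0 : 0 < β) (hβ2 : β ≤ 2 * C₁ * (κ * θ)) :
    T * a * κ * (Real.exp η * β) ^ (5 * kc) ≤ kc * ((1 - ε) * (α ^ 2 * β ^ (5 * kc - 1))) := by
  have hkc0 : (1 : ℝ) ≤ kc := by exact_mod_cast hkc
  have hJ0 : (0 : ℝ) ≤ J := Nat.cast_nonneg J
  have hC0 : 0 < C₁ := by linarith
  have hu0 : 0 < u := by rw [hu]; positivity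
  have hθ0 : 0 < θ := by rw [hθ]; push_cast; positivity
  have hpow : β ^ (5 * kc) = β ^ (5 * kc - 1) * β := by
    rw [← pow_succ]; congr 1; omega
  have hα0 : 0 ≤ α := le_trans (by positivity) hα
  have hrhs0 : 0 ≤ kc * ((1 - ε) * (α ^ 2 * β ^ (5 * kc - 1))) := by
    have : 0 ≤ 1 - ε := by linarith
    positivity
  rcases le_or_gt T 0 with hT0 | hT0
  · refine le_trans ?_ hrhs0
    have h1 : 0 ≤ a * κ * (Real.exp η * β) ^ (5 * kc) := by positivity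
    nlinarith
  have hexp : (Real.exp η * β) ^ (5 * kc) ≤ 2 * β ^ (5 * kc) := by
    calc (Real.exp η * β) ^ (5 * kc) = Real.exp (((5 * kc : ℕ) : ℝ) * η) * β ^ (5 * kc) := by
          rw [mul_pow, ← Real.exp_nat_mul]
      _ ≤ 2 * β ^ (5 * kc) := by
          refine mul_le_mul_of_nonneg_right ?_ (by positivity)
          have := M5_exp_le (x := ((5 * kc : ℕ) : ℝ) * η) (by positivity) (by linarith)
          linarith
  have hkθ : (kc : ℝ) * θ = u * (ε * a) / 5 := by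
    rw [hθ]; push_cast; field_simp
  have h2 : (κ * θ * (J + 2) / 2) ^ 2 ≤ α ^ 2 := pow_le_pow_left₀ (by positivity) hα 2
  have hJT : 2560 * T * C₁ ^ 2 ≤ ε ^ 2 * (J + 1) := by
    rw [div_le_iff₀ (by positivity)] at hT
    linarith
  have hm : T * a * κ * (2 * β) ≤ kc * (1 / 2 * α ^ 2) := by
    have h1 : T * a * κ * (2 * β) ≤ T * a * κ * (2 * (2 * C₁ * (κ * θ))) :=
      mul_le_mul_of_nonneg_left (by linarith) (by positivity)
    have h3 : (kc : ℝ) * (1 / 2 * (κ * θ * (J + 2) / 2) ^ 2) ≤ kc * (1 / 2 * α ^ 2) :=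
      mul_le_mul_of_nonneg_left (by linarith) (by positivity)
    have h4 : (kc : ℝ) * (1 / 2 * (κ * θ * (J + 2) / 2) ^ 2)
        = κ ^ 2 * θ * (J + 2) ^ 2 / 8 * (kc * θ) := by ring
    have h5 : κ ^ 2 * θ * (J + 2) ^ 2 / 8 * (u * (ε * a) / 5)
        = κ ^ 2 * θ * a * (ε ^ 2 * (J + 2) ^ 2 / (640 * C₁ * (J + 1))) := by
      rw [hu]; field_simp; ring
    have h6 : 4 * T * C₁ ≤ ε ^ 2 * (J + 2) ^ 2 / (640 * C₁ * (J + 1)) := by
      rw [le_div_iff₀ (by positivity)]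
      have h7 : ((J : ℝ) + 1) ^ 2 ≤ (J + 2) ^ 2 := by nlinarith
      have h8 : ε ^ 2 * ((J : ℝ) + 1) ^ 2 ≤ ε ^ 2 * (J + 2) ^ 2 :=
        mul_le_mul_of_nonneg_left h7 (sq_nonneg ε)
      have h9 : 2560 * T * C₁ ^ 2 * ((J : ℝ) + 1) ≤ ε ^ 2 * (J + 1) * (J + 1) :=
        mul_le_mul_of_nonneg_right hJT (by positivity)
      nlinarith
    have h7 : κ ^ 2 * θ * a * (4 * T * C₁)
        ≤ κ ^ 2 * θ * a * (ε ^ 2 * (J + 2) ^ 2 / (640 * C₁ * (J + 1))) :=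
      mul_le_mul_of_nonneg_left h6 (by positivity)
    rw [hkθ, h5] at h4
    nlinarith
  have hβp : 0 < β ^ (5 * kc - 1) := by positivity
  calc T * a * κ * (Real.exp η * β) ^ (5 * kc) ≤ T * a * κ * (2 * β ^ (5 * kc)) :=
        mul_le_mul_of_nonneg_left hexp (by positivity)
    _ = T * a * κ * (2 * β) * β ^ (5 * kc - 1) := by rw [hpow]; ring
    _ ≤ kc * (1 / 2 * α ^ 2) * β ^ (5 * kc - 1) := mul_le_mul_of_nonneg_right hm hβp.le
    _ = kc * (1 / 2 * (α ^ 2 * β ^ (5 * kc - 1))) := by ring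
    _ ≤ kc * ((1 - ε) * (α ^ 2 * β ^ (5 * kc - 1))) := by
        refine mul_le_mul_of_nonneg_left ?_ (by positivity)
        exact mul_le_mul_of_nonneg_right (by linarith) (by positivity)

theorem M5_num3 {κ a α β βz η ε H Ez P : ℝ} {k : ℕ} (hk : 2 ≤ k)
    (hε : 0 < ε) (hε1 : ε ≤ 1 / 100) (hκ : 0 < κ) (ha : 0 < a)
    (hη0 : 0 ≤ η) (hη : (k : ℝ) * η ≤ ε / 400) (hβ0 : 0 < β)
    (hβz : βz ≤ Real.exp (60 * η) * β) (hβz0 : 0 ≤ βz)
    (hH : κ * ((1 / 4 - 2 * ε) * a) ≤ H) (hP : P ≤ Real.exp (k * η))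
    (hEz : Ez ≤ P * (Real.exp (60 * η) * α ^ 4 * βz ^ (k - 2) / H)) :
    a / 4 * κ * (Real.exp η * β) ^ k * Ez ≤ (1 + 100 * ε) * ((1 - ε) * (α ^ 2 * β ^ (k - 1))) ^ 2 := by
  have hk2 : (2 : ℝ) ≤ k := by exact_mod_cast hk
  have h14 : 0 < 1 / 4 - 2 * ε := by linarith
  have hH0 : 0 < H := lt_of_lt_of_le (by positivity) hH
  have e1 : (Real.exp η * β) ^ k = Real.exp (k * η) * β ^ k := by
    rw [mul_pow, ← Real.exp_nat_mul]
  have e2 : βz ^ (k - 2) ≤ Real.exp (60 * (((k - 2 : ℕ) : ℝ) * η)) * β ^ (k - 2) := by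
    calc βz ^ (k - 2) ≤ (Real.exp (60 * η) * β) ^ (k - 2) := pow_le_pow_left₀ hβz0 hβz _
      _ = _ := by
        rw [mul_pow, ← Real.exp_nat_mul]
        congr 2
        ring
  have e3 : ((k - 2 : ℕ) : ℝ) = k - 2 := by rw [Nat.cast_sub hk]; norm_num
  have e4 : β ^ k * β ^ (k - 2) = (β ^ (k - 1)) ^ 2 := by
    rw [← pow_add, ← pow_mul]; congr 1; omega
  have hEz2 : Ez ≤ Real.exp (k * η) * (Real.exp (60 * η) * α ^ 4
      * (Real.exp (60 * ((k - 2) * η)) * β ^ (k - 2)) / (κ * ((1 / 4 - 2 * ε) * a))) := by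
    refine hEz.trans ?_
    rw [← e3]
    refine mul_le_mul hP ?_ (by positivity) (Real.exp_pos _).le
    refine div_le_div₀ (by positivity) ?_ (by positivity) hH
    exact mul_le_mul_of_nonneg_left e2 (by positivity)
  have hexp : Real.exp (k * η) * (Real.exp (k * η) * (Real.exp (60 * η)
      * Real.exp (60 * ((k - 2) * η)))) ≤ 1 + ε := by
    rw [← Real.exp_add, ← Real.exp_add, ← Real.exp_add]
    have h1 : k * η + (k * η + (60 * η + 60 * ((k - 2) * η))) ≤ 62 * (k * η) := by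
      nlinarith
    have h2 : Real.exp (k * η + (k * η + (60 * η + 60 * ((k - 2) * η)))) ≤ Real.exp (62 * (k * η)) :=
      Real.exp_le_exp.2 h1
    have h3 := M5_exp_le (x := 62 * (k * η)) (by positivity) (by linarith)
    linarith
  have hmain : a / 4 * κ * (Real.exp η * β) ^ k * Ez
      ≤ (1 + ε) / (1 - 8 * ε) * (α ^ 4 * (β ^ (k - 1)) ^ 2) := by
    calc a / 4 * κ * (Real.exp η * β) ^ k * Ez
        ≤ a / 4 * κ * (Real.exp η * β) ^ k * (Real.exp (k * η) * (Real.exp (60 * η) * α ^ 4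
          * (Real.exp (60 * ((k - 2) * η)) * β ^ (k - 2)) / (κ * ((1 / 4 - 2 * ε) * a)))) :=
          mul_le_mul_of_nonneg_left hEz2 (by positivity)
      _ = (Real.exp (k * η) * (Real.exp (k * η) * (Real.exp (60 * η)
            * Real.exp (60 * ((k - 2) * η))))) * (α ^ 4 * (β ^ k * β ^ (k - 2)))
            * ((a / 4 * κ) / (κ * ((1 / 4 - 2 * ε) * a))) := by
          rw [e1]; ring
      _ = (Real.exp (k * η) * (Real.exp (k * η) * (Real.exp (60 * η)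
            * Real.exp (60 * ((k - 2) * η))))) * (α ^ 4 * (β ^ (k - 1)) ^ 2)
            * (1 / (1 - 8 * ε)) := by
          rw [e4]
          congr 1
          have : (1 : ℝ) - 8 * ε ≠ 0 := by linarith
          field_simp
          norm_num
          ring
      _ ≤ (1 + ε) * (α ^ 4 * (β ^ (k - 1)) ^ 2) * (1 / (1 - 8 * ε)) := by
          refine mul_le_mul_of_nonneg_right ?_ (by
            apply div_nonneg zero_le_one; linarith)
          exact mul_le_mul_of_nonneg_right hexp (by positivity)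
      _ = _ := by ring
  refine hmain.trans ?_
  have h5 : (1 + ε) / (1 - 8 * ε) ≤ (1 + 100 * ε) * (1 - ε) ^ 2 := by
    rw [div_le_iff₀ (by linarith)]
    have h6 : 1 - 2 * ε ≤ (1 - ε) ^ 2 := by nlinarith
    have h7 : (1 + 100 * ε) * (1 - 2 * ε) * (1 - 8 * ε) ≤ (1 + 100 * ε) * (1 - ε) ^ 2 * (1 - 8 * ε) := by
      refine mul_le_mul_of_nonneg_right ?_ (by linarith)
      exact mul_le_mul_of_nonneg_left h6 (by positivity)
    refine le_trans ?_ h7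
    have h8 : (1 - 2 * ε) * (1 - 8 * ε) ≥ 1 - 10 * ε := by nlinarith
    have h9 : (1 + 100 * ε) * (1 - 10 * ε) ≤ (1 + 100 * ε) * ((1 - 2 * ε) * (1 - 8 * ε)) :=
      mul_le_mul_of_nonneg_left h8 (by positivity)
    nlinarith
  calc (1 + ε) / (1 - 8 * ε) * (α ^ 4 * (β ^ (k - 1)) ^ 2)
      ≤ ((1 + 100 * ε) * (1 - ε) ^ 2) * (α ^ 4 * (β ^ (k - 1)) ^ 2) :=
        mul_le_mul_of_nonneg_right h5 (by positivity)
    _ = _ := by ring

theorem M5_prod_le {P : Finset ℕ} {c : ℝ} (hc : 0 ≤ c) :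
    ∏ p : P, (1 + c * (1 / (((p : ℕ) : ℝ) - 1)) ^ 2) ≤ Real.exp (c * ∑ p : P, qP p ^ 2) := by
  rw [mul_sum, Real.exp_sum]
  refine prod_le_prod (fun p _ => by positivity) fun p _ => ?_
  have h := Real.add_one_le_exp (c * qP p ^ 2)
  have e : (1 / (((p : ℕ) : ℝ) - 1)) = qP p := rfl
  rw [e]
  linarith

theorem M5_alpha_le {W R J : ℕ} {θ : ℝ} (hθ : 0 ≤ θ) :
    SS (qP (P := PS W R)) (gP J θ) ≤ HP (PS W R) (2 ^ J * θ) := by
  rw [HP_subtype]
  refine sum_le_sum fun S _ => ?_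
  refine mul_le_mul_of_nonneg_right ?_ (prod_nonneg fun p _ => qP_nonneg p)
  show gP J θ S ≤ if ∑ p ∈ S, lP p ≤ 2 ^ J * θ then 1 else 0
  split_ifs with h
  · exact gJ_le_one _
  · exact (gJ_eq_zero hθ (not_le.1 h)).le

lemma M5n_a {a ε : ℝ} (hε : 0 < ε) (hε1 : ε ≤ 1 / 100) (h : 10 / ε ≤ a) :
    0 < a ∧ 10 ≤ a * ε ∧ 1000 ≤ a := by
  have h0 : 0 < a := lt_of_lt_of_le (by positivity) h
  have h1 : 10 ≤ a * ε := by rwa [div_le_iff₀ hε] at h
  have h2 : a * ε ≤ a * (1 / 100) := mul_le_mul_of_nonneg_left hε1 h0.le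
  exact ⟨h0, h1, by linarith⟩

lemma M5n_R {a ε : ℝ} {R : ℕ} (hε1 : ε ≤ 1 / 100) (ha0 : 0 < a)
    (ha3 : 10 ≤ a * ε) (hR : R = ⌊Real.exp (a / 4)⌋₊) : (1 / 4 - 2 * ε) * a ≤ Real.log R := by
  have h1 : Real.exp (a / 4) < R + 1 := by rw [hR]; exact Nat.lt_floor_add_one _
  have h2 : Real.exp ((1 / 4 - 2 * ε) * a) + 1 ≤ Real.exp (a / 4) := by
    have h3 : Real.exp (a / 4) = Real.exp ((1 / 4 - 2 * ε) * a) * Real.exp (2 * ε * a) := by
      rw [← Real.exp_add]; congr 1; ring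
    have h4 : (2 : ℝ) ≤ Real.exp (2 * ε * a) := by
      have := Real.add_one_le_exp (2 * ε * a)
      have h5 : 2 * ε * a = 2 * (a * ε) := by ring
      linarith
    have h5 : (1 : ℝ) ≤ Real.exp ((1 / 4 - 2 * ε) * a) :=
      Real.one_le_exp (mul_nonneg (by linarith) ha0.le)
    rw [h3]
    have h6 := mul_le_mul_of_nonneg_left h4 (by linarith : 0 ≤ Real.exp ((1 / 4 - 2 * ε) * a))
    linarith
  have h6 : Real.exp ((1 / 4 - 2 * ε) * a) ≤ R := by linarith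
  have h7 : (0 : ℝ) < R := (Real.exp_pos _).trans_le h6
  exact (Real.le_log_iff_exp_le h7).2 h6

lemma M5n_th {θ₀ k u ε a : ℝ} (hk0 : 0 < k) (hu0 : 0 < u) (hε : 0 < ε)
    (ha1 : θ₀ * k / (u * ε) ≤ a) : θ₀ ≤ u * (ε * a) / k := by
  rw [div_le_iff₀ (by positivity)] at ha1
  rw [le_div_iff₀ hk0]
  linarith [(by ring : a * (u * ε) = u * (ε * a))]

lemma M5n_u {u ε C₁ J : ℝ} (hε1 : ε ≤ 1 / 100) (hC₁ : 1 ≤ C₁) (hJ : 0 ≤ J)
    (hu : u = ε / (16 * C₁ * (J + 1))) : u ≤ 1 := by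
  rw [hu, div_le_one (by positivity)]
  have h1 : 1 ≤ C₁ * (J + 1) := one_le_mul_of_one_le_of_one_le hC₁ (by linarith)
  linarith [mul_assoc 16 C₁ (J + 1)]

lemma M5n_L {k u L θ : ℝ} {J : ℕ} (hk : k = 10 * 2 ^ J) (hL0 : 0 < L) (hu : u ≤ 1)
    (hθ : θ = u * L / k) : 2 ^ J * θ ≤ L / 2 := by
  have h2 : 2 ^ J * θ = u * L / 10 := by
    rw [hθ, hk]
    have : (2 : ℝ) ^ J ≠ 0 := by positivity
    field_simp
  rw [h2]
  have := mul_le_mul_of_nonneg_right hu hL0.le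
  linarith

lemma M5n_eta {k η ε : ℝ} (hk2 : 2 ≤ k) (hη0 : 0 ≤ η) (h : (k ^ 2 + 2 * k) * η ≤ ε / 100) :
    k * η ≤ ε / 400 := by
  have h1 : 4 * k * η ≤ (k ^ 2 + 2 * k) * η := mul_le_mul_of_nonneg_right (by nlinarith) hη0
  linarith

lemma M5n_E {k η ε X : ℝ} (hε : 0 < ε) (hε1 : ε ≤ 1 / 100) (hη : 0 ≤ k * η)
    (hη2 : k * η ≤ ε / 400) (hX : 0 ≤ X) :
    (1 - ε) * X ≤ (1 - k * η) * ((1 - ε / 2) * X) := by
  have h3 : 1 - ε ≤ (1 - k * η) * (1 - ε / 2) := by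
    have h4 : 0 ≤ k * η * (ε / 2) := mul_nonneg hη (by linarith)
    linarith [(by ring : (1 - k * η) * (1 - ε / 2) = 1 - ε / 2 - k * η + k * η * (ε / 2))]
  calc (1 - ε) * X ≤ ((1 - k * η) * (1 - ε / 2)) * X := mul_le_mul_of_nonneg_right h3 hX
    _ = _ := by ring

lemma M5n_half {ε X : ℝ} (hε1 : ε ≤ 1 / 100) (hX : 1 ≤ X) : 1 / 2 ≤ (1 - ε) * X := by
  have h1 : (1 - ε) * 1 ≤ (1 - ε) * X := mul_le_mul_of_nonneg_left hX (by linarith)
  linarith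

lemma M5n_al {x₀ θ L a C₁ κ ε α : ℝ} {J : ℕ} (hθ0 : 0 < θ) (hθx : x₀ ≤ θ) (hΛ : 2 ^ J * θ ≤ L / 2)
    (hL : L = ε * a) (hε1 : ε ≤ 1 / 100) (ha0 : 0 < a) (hC : 0 ≤ C₁ * κ)
    (hα : x₀ ≤ 2 ^ J * θ → α ≤ C₁ * κ * (2 ^ J * θ)) : α ≤ a * (C₁ * κ) := by
  have h1 : x₀ ≤ 2 ^ J * θ := by
    have : (1 : ℝ) ≤ 2 ^ J := one_le_pow₀ (by norm_num)
    exact hθx.trans (le_mul_of_one_le_left hθ0.le this)
  refine (hα h1).trans ?_
  have h2 : 2 ^ J * θ ≤ a := by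
    have h3 : ε * a ≤ 1 / 100 * a := mul_le_mul_of_nonneg_right hε1 ha0.le
    linarith
  calc C₁ * κ * (2 ^ J * θ) ≤ C₁ * κ * a := mul_le_mul_of_nonneg_left h2 hC
    _ = _ := by ring

open Classical in
/-- M5: the numbers. -/
theorem model5 (T ε : ℝ) (hε : 0 < ε) (hε1 : ε ≤ 1 / 100) : ∃ kc D₀ : ℕ, 1 ≤ kc ∧
    4 * (5 * kc) + 4 ≤ D₀ ∧ ∀ W : ℕ, 0 < W → (∀ p : ℕ, p.Prime → p ≤ D₀ → p ∣ W) →
    ∃ a₀ : ℝ, ∀ a : ℝ, a₀ ≤ a → ∀ R : ℕ, R = ⌊Real.exp (a / 4)⌋₊ →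
    ∃ (y : (PS W R → Option (Fin (5 * kc))) → ℝ) (E₀ E₁ : ℝ),
      (∀ σ, |y σ| ≤ 1) ∧
      (∀ σ, y σ ≠ 0 → (dd (fun p : PS W R => (p : ℕ)) σ : ℝ) ≤ Real.exp (ε * a)) ∧
      1 ≤ E₀ ∧ 1 / 2 ≤ E₁ ∧
      Ex (fun p : PS W R => mu0 (p : ℝ)) (fun e => FF (fun p : PS W R => (p : ℕ)) y e ^ 2) ≤ E₀ ∧
      (∀ m, E₁ ≤ Ex (fun p : PS W R => mu1 m (p : ℝ))
        (fun e => FF (fun p : PS W R => (p : ℕ)) y e ^ 2)) ∧
      T * a * ((Nat.totient W : ℝ) / W) * E₀ ≤ kc * E₁ ∧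
      ∀ m m' : Fin (5 * kc), m ≠ m' → ∃ z : (PS W R → Option (Fin (5 * kc))) → ℝ,
        (∀ σ, |z σ| ≤ a ^ 3) ∧
        (∀ σ, z σ ≠ 0 → (dd (fun p : PS W R => (p : ℕ)) σ : ℝ) ≤ Real.exp ((1 / 4 - ε) * a)) ∧
        (∀ e : PS W R → Option (Fin (5 * kc)), (∀ p, e p ≠ some m ∧ e p ≠ some m') →
          FF (fun p : PS W R => (p : ℕ)) z e = FF (fun p : PS W R => (p : ℕ)) y e) ∧
        a / 4 * ((Nat.totient W : ℝ) / W) * E₀ * Ex (fun p : PS W R => mu1 m (p : ℝ))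
          (fun e => FF (fun p : PS W R => (p : ℕ)) z e ^ 2) ≤ (1 + 100 * ε) * E₁ ^ 2 := by
  obtain ⟨C₁, hC₁, hup⟩ := HP_upper
  have hC0 : 0 < C₁ := by linarith
  obtain ⟨J, hJ⟩ := exists_nat_ge (2560 * T * C₁ ^ 2 / ε ^ 2)
  have hJ0 : (0 : ℝ) ≤ J := Nat.cast_nonneg J
  set kc : ℕ := 2 ^ (J + 1) with hkcdef
  have hkc1 : 1 ≤ kc := Nat.one_le_two_pow
  set k : ℕ := 5 * kc with hkdef
  have hk : 2 ≤ k := by omega
  have hk2 : (2 : ℝ) ≤ k := by exact_mod_cast hk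
  have hk0 : (0 : ℝ) < k := by linarith
  set N : ℕ := ⌈200 / ε⌉₊ with hN
  have hN1 : 200 / ε ≤ N := Nat.le_ceil _
  have hN1' : 200 ≤ N * ε := by rwa [div_le_iff₀ hε] at hN1
  have hN2 : 2 ≤ N := by
    have h1 : (200 : ℝ) ≤ N := by
      have h0 : (0 : ℝ) ≤ N := Nat.cast_nonneg N
      nlinarith
    have h2 : (200 : ℕ) ≤ N := by exact_mod_cast h1
    omega
  set D : ℕ := N * (k ^ 2 + 2 * k) with hD
  have hDk : 4 * k + 4 ≤ D := by
    have h1 : 2 * (k ^ 2 + 2 * k) ≤ N * (k ^ 2 + 2 * k) := Nat.mul_le_mul_right _ hN2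
    have h2 : 4 * k + 4 ≤ 2 * (k ^ 2 + 2 * k) := by nlinarith
    omega
  have hD2 : 2 ≤ D := by omega
  refine ⟨kc, D, hkc1, hDk, ?_⟩
  intro W hW hWD
  have hκ : 0 < (Nat.totient W : ℝ) / W := by
    have h1 : 0 < Nat.totient W := Nat.totient_pos.2 hW
    positivity
  set κ : ℝ := (Nat.totient W : ℝ) / W with hκdef
  obtain ⟨x₀, hx₀⟩ := hup W hW
  obtain ⟨θ₀, hθ₀, hdy⟩ := dyadic_sums hC₁ hW hx₀ J
  set u : ℝ := ε / (16 * C₁ * (J + 1)) with hu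
  have hu0 : 0 < u := div_pos hε (mul_pos (mul_pos (by norm_num) hC0) (by linarith))
  refine ⟨max (max (θ₀ * k / (u * ε)) (x₀ * k / (u * ε))) (max (10 / ε) ((C₁ * κ) ^ 2)), ?_⟩
  intro a ha R hR
  have ha1 : θ₀ * k / (u * ε) ≤ a := le_trans (le_trans (le_max_left _ _) (le_max_left _ _)) ha
  have ha2 : x₀ * k / (u * ε) ≤ a := le_trans (le_trans (le_max_right _ _) (le_max_left _ _)) ha
  have ha3 : 10 / ε ≤ a := le_trans (le_trans (le_max_left _ _) (le_max_right _ _)) ha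
  have ha4 : (C₁ * κ) ^ 2 ≤ a := le_trans (le_trans (le_max_right _ _) (le_max_right _ _)) ha
  obtain ⟨ha0, ha3', ha1000⟩ := M5n_a hε hε1 ha3
  -- the scale R
  have hRlog : (1 / 4 - 2 * ε) * a ≤ Real.log R := M5n_R hε1 ha0 ha3' hR
  set L : ℝ := ε * a with hLdef
  have hL0 : 0 < L := mul_pos hε ha0
  set θ : ℝ := u * L / k with hθ
  have hθθ : θ₀ ≤ θ := M5n_th hk0 hu0 hε ha1
  have hθx : x₀ ≤ θ := M5n_th hk0 hu0 hε ha2
  have hθ0 : 0 < θ := by linarith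
  have hu16 : u ≤ 1 := M5n_u hε1 hC₁ hJ0 hu
  have hΛ : 2 ^ J * θ ≤ L / 2 :=
    M5n_L (by rw [hkdef, hkcdef]; push_cast; ring) hL0 hu16 hθ
  have hLR : L ≤ Real.log R := by
    refine le_trans ?_ hRlog
    rw [hLdef]
    exact mul_le_mul_of_nonneg_right (by linarith) ha0.le
  obtain ⟨hα, hβ1, hβ2, hmom⟩ := hdy θ hθθ R (by linarith)
  -- eta
  set η : ℝ := ∑ p : PS W R, qP p ^ 2 with hη
  have hη0 : 0 ≤ η := sum_nonneg fun p _ => sq_nonneg _
  have hη1 : ((k : ℝ) ^ 2 + 2 * k) * η ≤ ε / 100 := by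
    have h1 := M5_SF_eta_le hD2 hWD (R := R)
    have h2 : (D : ℝ) = N * ((k : ℝ) ^ 2 + 2 * k) := by rw [hD]; push_cast; ring
    rw [h2] at h1
    have h3 : 0 < (k : ℝ) ^ 2 + 2 * k := add_pos (pow_pos hk0 2) (mul_pos two_pos hk0)
    have hN0 : (0 : ℝ) < N := by
      have : (2 : ℝ) ≤ N := by exact_mod_cast hN2
      linarith
    calc ((k : ℝ) ^ 2 + 2 * k) * η ≤ ((k : ℝ) ^ 2 + 2 * k) * (2 / (N * ((k : ℝ) ^ 2 + 2 * k))) :=
          mul_le_mul_of_nonneg_left h1 h3.le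
      _ = 2 / N := by field_simp
      _ ≤ ε / 100 := by
          rw [div_le_div_iff₀ hN0 (by norm_num)]
          linarith
  have hη2 : (k : ℝ) * η ≤ ε / 400 := M5n_eta hk2 hη0 hη1
  have hprime : ∀ p ∈ PS W R, p.Prime := fun p hp => (mem_PS.1 hp).2.1
  have hbigN : ∀ p ∈ PS W R, 4 * k + 4 < p := by
    intro p hp
    have h1 : D < p := by
      by_contra hcon
      exact (mem_PS.1 hp).2.2 (hWD p (hprime p hp) (not_lt.1 hcon))
    omega
  have hbig : ∀ p ∈ PS W R, 2 * (k : ℝ) + 2 ≤ p := by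
    intro p hp
    have h2 : 2 * k + 2 ≤ p := by
      have := hbigN p hp
      omega
    exact_mod_cast h2
  have hq : ∀ p : PS W R, 0 ≤ qP p := fun p => qP_nonneg p
  have hq4 : ∀ p : PS W R, qP p ≤ 1 / 4 := fun p => by
    have h1 := hbig p p.2
    unfold qP
    rw [div_le_div_iff₀ (by linarith) (by norm_num)]
    linarith
  have hkq : ∀ p : PS W R, 2 * k * qP p ≤ 1 := fun p => by
    have := hbig p p.2
    unfold qP
    rw [mul_one_div, div_le_one (by linarith)]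
    linarith
  have hal : ∀ p : PS W R, 0 ≤ qP p * (1 - 2 * k * qP p) := fun p =>
    mul_nonneg (hq p) (by linarith [hkq p])
  have haq : ∀ p : PS W R, qP p * (1 - 2 * k * qP p) ≤ qP p := fun p => by
    refine mul_le_of_le_one_right (hq p) ?_
    have : 0 ≤ 2 * k * qP p := mul_nonneg (mul_nonneg zero_le_two hk0.le) (hq p)
    linarith
  have hg0 : gP J θ (∅ : Finset (PS W R)) = 1 := by
    unfold gP
    rw [sum_empty]
    exact gJ_zero hθ0.le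
  set α : ℝ := SS (qP (P := PS W R)) (gP J θ) with hαdef
  set β : ℝ := SS (qP (P := PS W R)) (fun S => gP J θ S ^ 2) with hβdef
  have hα1 : 1 ≤ α := M5_SF_one_le_SS hq M5_SF_gP_nonneg hg0
  have hβone : 1 ≤ β := M5_SF_one_le_SS hq (fun S => sq_nonneg _) (by rw [hg0, one_pow])
  have hβ0 : 0 < β := by linarith
  have hβa := SS_one_sub_ge hq (f := fun S : Finset (PS W R) => gP J θ S ^ 2)
    (fun S => sq_nonneg _) M5_SF_gP_sq_anti (c := 2 * k) (mul_nonneg zero_le_two hk0.le) hkq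
  rw [← hη, ← hβdef] at hβa
  have hmoma : SS (fun p : PS W R => qP p * (1 - 2 * k * qP p))
      (fun S => gP J θ S ^ 2 * ∑ p ∈ S, lP p) ≤ (J + 1) * C₁ * (κ * θ ^ 2) :=
    (M5_SF_SS_mono hal haq fun S => mul_nonneg (sq_nonneg _)
      (sum_nonneg fun p _ => M5_SF_lP_nonneg p)).trans hmom
  have n1 := M5_num1 (α := α) hk hC₁ hε hε1 hu hκ hL0 hθ hη0 hη1 hΛ hβ1 hβa hmoma
  have hX0 : 0 ≤ (1 - ε / 2) * (α ^ 2 * β ^ (k - 1)) :=
    mul_nonneg (by linarith) (mul_nonneg (sq_nonneg α) (pow_nonneg hβ0.le _))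
  set E₀ : ℝ := (Real.exp η * β) ^ k with hE₀
  set E₁ : ℝ := (1 - ε) * (α ^ 2 * β ^ (k - 1)) with hE₁
  have hAB1 : 1 ≤ α ^ 2 * β ^ (k - 1) :=
    one_le_mul_of_one_le_of_one_le (one_le_pow₀ hα1) (one_le_pow₀ hβone)
  have hlow : ∀ m : Fin k, E₁ ≤ Ex (fun p : PS W R => mu1 m (p : ℝ))
      (fun e => FF (fun p : PS W R => (p : ℕ)) (yy (k := k) lP L (gP J θ)) e ^ 2) := by
    intro m
    have h1 := M5_lower_final hk hbig m J hθ0.le (Λ := L) (by linarith) n1 hX0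
    refine le_trans ?_ h1
    rw [← hη, hE₁]
    exact M5n_E hε hε1 (mul_nonneg hk0.le hη0) hη2 (by linarith)
  have hyle : ∀ σ, |yy (k := k) (lP (P := PS W R)) L (gP J θ) σ| ≤ 1 := by
    intro σ
    have h1 : 0 ≤ ∏ i, gP J θ (cls σ i) := prod_nonneg fun i _ => M5_SF_gP_nonneg _
    have h2 : ∏ i, gP J θ (cls σ i) ≤ 1 :=
      prod_le_one (fun i _ => M5_SF_gP_nonneg _) fun i _ => M5_SF_gP_le_one _
    rw [yy]
    split_ifs
    · rw [mul_one, abs_of_nonneg h1]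
      exact h2
    · simp
  have hysupp : ∀ σ, yy (k := k) (lP (P := PS W R)) L (gP J θ) σ ≠ 0 →
      ∑ p ∈ supp σ, lP p ≤ L := by
    intro σ hσ
    by_contra hcon
    exact hσ (by rw [yy, if_neg hcon, mul_zero])
  have hY0 : 0 ≤ (1 / 4 - 2 * ε) * a := mul_nonneg (by linarith) ha0.le
  refine ⟨yy lP L (gP J θ), E₀, E₁, hyle, ?_, ?_, ?_, ?_, hlow, ?_, ?_⟩
  · intro σ hσ
    exact M5_supp_dd hprime σ (hysupp σ hσ)
  · refine one_le_pow₀ (one_le_mul_of_one_le_of_one_le (Real.one_le_exp hη0) hβone)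
  · rw [hE₁]
    exact M5n_half hε1 hAB1
  · have hU := M5_upper_final (k := k) hbig J θ L
    exact hU
  · exact M5_num2 hkc1 hC₁ hε hε1 (by linarith) hu hκ ha0 hθ hη0 (by rw [← hkdef]; linarith)
      hα hβ0 hβ2
  · intro m m' hmm
    refine ⟨hz m m' qP lP ((1 / 4 - 2 * ε) * a) (yy lP L (gP J θ)), ?_, ?_, ?_, ?_⟩
    · intro σ
      have hα2 : α ≤ a * (C₁ * κ) := M5n_al hθ0 hθx hΛ hLdef hε1 ha0 (mul_nonneg hC0.le hκ.le)
        fun h1 => (M5_alpha_le hθ0.le).trans (hx₀ _ h1 R)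
      have hα3 : α ^ 2 ≤ a ^ 3 := by
        calc α ^ 2 ≤ (a * (C₁ * κ)) ^ 2 := pow_le_pow_left₀ (by linarith) hα2 2
          _ = a ^ 2 * (C₁ * κ) ^ 2 := by ring
          _ ≤ a ^ 2 * a := mul_le_mul_of_nonneg_left ha4 (sq_nonneg a)
          _ = a ^ 3 := by ring
      unfold hz
      split_ifs with hσ
      · have ht : ∀ p, rem m' σ p ≠ some m ∧ rem m' σ p ≠ some m' := by
          intro p
          unfold rem
          split_ifs with h
          · simp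
          · exact ⟨hσ.1 p, h⟩
        obtain ⟨b1, b2⟩ := yy2_le m m' hmm hq (l := lP) (g := gP J θ)
          (fun S => M5_SF_gP_nonneg S) L (rem m' σ) ht
        have hZ : 1 ≤ ZZ (qP (P := PS W R)) lP ((1 / 4 - 2 * ε) * a) (rem m' σ) := by
          unfold ZZ
          have h1 : (∅ : Finset (PS W R)) ∈ (univ : Finset (Finset (PS W R))).filter
              (fun S => Disjoint S (supp (rem m' σ)) ∧ ∑ p ∈ S, lP p ≤ (1 / 4 - 2 * ε) * a) := by
            rw [mem_filter]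
            exact ⟨mem_univ _, disjoint_empty_left _, by rw [sum_empty]; exact hY0⟩
          have h2 := single_le_sum (f := fun S : Finset (PS W R) => ∏ p ∈ S, qP p)
            (fun S _ => prod_nonneg fun p _ => hq p) h1
          simpa using h2
        have hprod1 : ∏ i ∈ (univ.erase m).erase m', gP J θ (cls (rem m' σ) i) ≤ 1 :=
          prod_le_one (fun i _ => M5_SF_gP_nonneg _) fun i _ => M5_SF_gP_le_one _
        rw [abs_of_nonneg (div_nonneg b1 (by linarith))]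
        refine (div_le_self b1 hZ).trans (b2.trans ?_)
        refine le_trans ?_ hα3
        exact mul_le_of_le_one_left (sq_nonneg _) hprod1
      · rw [abs_zero]; exact pow_nonneg ha0.le 3
    · intro σ hσ
      have h1 := (hz_support m m' (fun p => M5_SF_lP_nonneg p) hysupp σ hσ).2
      refine M5_supp_dd hprime σ (h1.trans (le_of_eq ?_))
      rw [hLdef]; ring
    · intro e he
      exact FF_hz (fun p : PS W R => (p : ℕ)) (fun p => (hprime p p.2).two_le) m m' hmm lP _ hY0 _ e he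
    · have h1 := form_upper1 (k := k) (fun p : PS W R => (p : ℕ)) (fun p => hbig p p.2) m
        (hz m m' qP lP ((1 / 4 - 2 * ε) * a) (yy lP L (gP J θ))) (fun σ hσ => by
          unfold hz
          rw [if_neg]
          rintro ⟨h1, -⟩
          obtain ⟨p, hp⟩ := hσ
          exact h1 p hp)
      have h2 := hz_form hk m m' hmm hq hq4 (fun p => M5_SF_lP_nonneg p) (g := gP J θ)
        (fun S => M5_SF_gP_nonneg S) hY0 L
      rw [← HP_subtype, ← hη] at h2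
      have hP := M5_prod_le (P := PS W R) (c := (k : ℝ)) hk0.le
      rw [← hη] at hP
      have hP0 : 0 ≤ ∏ p : PS W R, (1 + (k : ℝ) * (1 / (((p : ℕ) : ℝ) - 1)) ^ 2) :=
        prod_nonneg fun p _ => add_nonneg zero_le_one (mul_nonneg hk0.le (sq_nonneg _))
      have hβz := SS_one_add_six hq hq4 (f := fun S : Finset (PS W R) => gP J θ S ^ 2)
        (fun S => sq_nonneg _) M5_SF_gP_sq_anti
      rw [← hη, ← hβdef] at hβz
      have hβz0 : 0 ≤ SS (fun p : PS W R => qP p * (1 + 6 * qP p)) (fun S => gP J θ S ^ 2) :=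
        sum_nonneg fun S _ => mul_nonneg (sq_nonneg _)
          (prod_nonneg fun p _ => mul_nonneg (hq p) (by linarith [hq p]))
      refine M5_num3 (α := α) hk hε hε1 hκ ha0 hη0 hη2 hβ0 hβz hβz0 (HP_lower hW hY0 hRlog) hP ?_
      refine h1.trans ?_
      exact mul_le_mul_of_nonneg_left h2 hP0

end Pool.Agent.helper85.FC
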